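import Pool.Agent.Lib.MP_9cc147_pr.Cx.I.Def
import Pool.Agent.Lib.MP_9cc147_pr.Cx.Pe.Bas
import Pool.Agent.Lib.MP_9cc147_pr.Cx.A.One1

/-! Edges, tiles, forms, summation by parts. -/

open scoped Classical Topology
open Finset MeasureTheory ProbabilityTheory Filter

noncomputable section
namespace Pool.Agent.Lib.MP_9cc147_pr.Cx.I

variable {n L m R : ℕ} {e : Ed} {x y T p : P} {S U : Finset P}

theorem rev_rev (e : Ed) : rev (rev e) = e := by
  exact Pe.rev_rev e
theorem rev_crn (e : Ed) : (rev e).1 + crn (rev e).2 = e.1 + crn (e.2 + 1) ∧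
    (rev e).1 + crn ((rev e).2 + 1) = e.1 + crn e.2 := by
  obtain ⟨x, d⟩ := e
  fin_cases d <;> simp [rev, crn, dir, Prod.ext_iff]
theorem mem_hes : e ∈ hes n ↔ e.1 ∈ box n ∧ (rev e).1 ∈ box n := by
  exact Pe.mem_hes
theorem rev_hes : rev e ∈ hes n ↔ e ∈ hes n := by
  rw [mem_hes, mem_hes, rev_rev, and_comm]
theorem mem_he : e ∈ he n S ↔ e ∈ hes n ∧ (e.1 ∈ S ∨ (rev e).1 ∈ S) := by
  exact mem_filter
theorem he_box : he n (box n) = hes n := by
  exact filter_true_of_mem fun e he => .inl (mem_hes.1 he).1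
theorem dg_rev {α : Type} [AddCommGroup α] (Θ : P → α) (e : Ed) :
    dg Θ (rev e).1 (rev e).2 = -dg Θ e.1 e.2 := by
  rw [dg, dg, (rev_crn e).1, (rev_crn e).2, neg_sub]
theorem cap_rev (n : ℕ) (e : Ed) : cap n (rev e) = cap n e := by
  rw [cap, cap, (rev_crn e).1, (rev_crn e).2]
  simp only [or_comm]
theorem nr_rev (e : Ed) : nr 1 e.1 (rev e).1 := by
  exact Pe.nr_rev e
theorem nr_refl (k : ℕ) (x : P) : nr k x x := by
  exact one_nr_refl k x
theorem nr_symm {k : ℕ} (h : nr k x y) : nr k y x := by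
  exact one_nr_symm h
theorem mem_near1 {k : ℕ} : x ∈ near k U {T} ↔ x ∈ U ∧ nr k T x := by
  simp [near]
theorem mem_bdry : x ∈ bdry U S ↔ x ∈ U ∧ (∃ a ∈ S, nr 1 a x) ∧ x ∉ S := by
  rw [bdry, Finset.mem_sdiff, near, mem_filter, and_assoc]
theorem mem_cell (hL : 0 < L) : x ∈ cell L T ↔ par L x = T := by
  exact one_mem_cell hL
theorem mem_under (hL : 0 < L) : x ∈ under L U ↔ par L x ∈ U := by
  exact one_mem_under hL
theorem under_one (L : ℕ) (T : P) : under L {T} = cell L T := by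
  simp [under]
theorem under_box (hL : 0 < L) : under L (box m) = box (L * m) := by
  ext x
  rw [mem_under hL, Pe.par_box hL]
theorem par_box (hL : 0 < L) : par L x ∈ box m ↔ x ∈ box (L * m) := by
  exact (Pe.par_box hL).symm
theorem nr_par (hL : 0 < L) (h : nr 1 x y) : nr 1 (par L x) (par L y) := by
  exact one_par_nr hL (one_nr_mono h hL)
theorem typ_rev (s : Lab) (e : Ed) : typ s e.1 + typ s (rev e).1 = 2 := by
  obtain ⟨x, d⟩ := e
  have k : Even ((rev (x, d)).1.1 + (rev (x, d)).1.2) ↔ ¬ Even (x.1 + x.2) := by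
    fin_cases d <;> simp [rev, dir, Int.even_iff] <;> omega
  unfold typ
  simp only [k]
  by_cases h0 : s = 0
  · simp [h0]
  · by_cases h1 : s = 1 <;> by_cases h2 : Even (x.1 + x.2) <;> simp [h0, h1, h2]
theorem seam_cq (hL : 5 ≤ L) (he : e ∈ hes (L * m)) (h : par L e.1 ≠ par L (rev e).1) :
    ¬ cq (L * m) e.1 := by
  obtain ⟨⟨x, y⟩, d⟩ := e
  have L0 : (0 : ℤ) < L := by exact_mod_cast (by omega : 0 < L)
  have L5 : (5 : ℤ) ≤ L := by exact_mod_cast hL
  have k : ∀ u : ℤ, 0 ≤ u → u + 1 < L * m → u / L ≠ (u + 1) / L → 4 ≤ u ∧ u + 1 < L * m - 4 := by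
    intro u h0 h1 h2
    have a1 := Int.ediv_le_ediv L0 (show u ≤ u + 1 by omega)
    have a2 : u < (u + 1) / L * L := by
      rw [← Int.ediv_lt_iff_lt_mul L0]; omega
    have a3 := Int.ediv_mul_le (u + 1) L0.ne'
    have a4 := Int.ediv_nonneg h0 L0.le
    have a5 : (u + 1) / L < m := (Int.ediv_lt_iff_lt_mul L0).2 (by linarith)
    generalize (u + 1) / L = k at *
    have a6 : 1 * (L : ℤ) ≤ k * L := by gcongr; omega
    have a7 : (k + 1) * (L : ℤ) ≤ m * L := by gcongr; omega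
    constructor <;> linarith
  rw [mem_hes, Pe.mem_box, Pe.mem_box] at he
  rintro ⟨c1, c2⟩
  push_cast at he c1 c2
  fin_cases d <;> simp [rev, dir, par] at he h
  · have := k x (by omega) (by omega) h
    omega
  · have := k y (by omega) (by omega) h
    omega
  · have := k (x + -1) (by omega) (by omega) (by simpa using Ne.symm h)
    omega
  · have := k (y + -1) (by omega) (by omega) (by simpa using Ne.symm h)
    omega
theorem mem_cfgs {ι S : Type} {V : Finset S} {d : S} {D : Finset ι} {f : ι → S} :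
    f ∈ cfgs V d D ↔ (∀ x ∈ D, f x ∈ V) ∧ ∀ x, x ∉ D → f x = d := by
  exact Pe.mem_cfgs
theorem mem_forms {δ : Form R} : δ ∈ forms R n S ↔ (∀ e ∈ he n S, δ e ∈ Wl R ∪ Wk R 1) ∧
    (∀ e, e ∉ he n S → δ e = 0) ∧ (∀ e, δ (rev e) = -δ e) ∧
    ∀ e ∈ hes n, e.1 ∈ S → (rev e).1 ∈ S → δ e ∈ Wl R := by
  rw [forms, mem_filter, mem_cfgs, and_assoc]
  refine and_congr_right' (and_congr_right' (and_congr_right' ?_))
  exact ⟨fun h e he a b => h e (mem_he.2 ⟨he, .inl a⟩) a b, fun h e he => h e (mem_he.1 he).1⟩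
theorem mem_Wk {k : ℕ} (hk : k ≤ 2) {w : Gp R} : w ∈ Wk R k ↔ nrm w = k := by
  rw [Wk, mem_filter, Fintype.mem_piFinset]
  refine ⟨fun h => h.2, fun h => ⟨fun i => ?_, h⟩⟩
  have a : mu R i * (w i).natAbs ≤ nrm w :=
    single_le_sum (f := fun i => mu R i * (w i).natAbs) (fun _ _ => Nat.zero_le _) (mem_univ i)
  have b := Nat.le_mul_of_pos_left (w i).natAbs (Pe.mu_pos i)
  rw [mem_Icc]
  omega
theorem nrm_neg (w : Gp R) : nrm (-w) = nrm w := by
  exact Pe.nrm_neg w
theorem nrm_zero {w : Gp R} : nrm w = 0 ↔ w = 0 := by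
  exact Pe.nrm_eq_zero
/-- two labels of total norm 2 differ by a well -/
theorem sub_Wl {v w : Gp R} (h : nrm v + nrm w = 2) : v - w ∈ Wl R := by
  have a : nrm (v - w) ≤ nrm v + nrm w := by
    simp only [nrm, ← sum_add_distrib, ← mul_add]
    exact sum_le_sum fun i _ => Nat.mul_le_mul_left _ (Int.natAbs_sub_le _ _)
  have b : Even (nrm (v - w) + (nrm v + nrm w)) := by
    simp only [nrm, ← sum_add_distrib, ← mul_add]
    refine even_sum _ fun i _ => Even.mul_left ?_ _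
    rw [Pi.sub_apply, Nat.even_iff]
    omega
  rw [Wl, mem_union, mem_Wk (by omega), mem_Wk le_rfl]
  rw [Nat.even_iff] at b
  omega
theorem not_isG {w : Gp R} (h : nrm w ≤ 1) (i : Fin (ng R)) (hi : R ≤ i.val) : w i = 0 := by
  have a : mu R i * (w i).natAbs ≤ nrm w :=
    single_le_sum (f := fun i => mu R i * (w i).natAbs) (fun _ _ => Nat.zero_le _) (mem_univ i)
  rw [mu, if_neg (by omega)] at a
  omega
theorem H_add (o : Mod) (v w : Gp o.R) : o.H (v + w) = o.H v + o.H w := by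
  simp [Mod.H, mul_add, sum_add_distrib]
theorem H_sum (o : Mod) {ι : Type} (J : Finset ι) (f : ι → Gp o.R) :
    o.H (∑ i ∈ J, f i) = ∑ i ∈ J, o.H (f i) := by
  induction J using Finset.cons_induction with
  | empty => simp [Mod.H]
  | cons a s h ih => rw [sum_cons, sum_cons, H_add, ih]
theorem H_neg (o : Mod) (w : Gp o.R) : o.H (-w) = -o.H w := by
  simp [Mod.H]
/-- the four edges around a vertex go round through the four faces at it -/
theorem rev_face (p : P) (d : Fin 4) : (rev (p - crn (d + 1), d)).1 = p - crn (d + 2) := by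
  fin_cases d <;> simp [rev, crn, dir, Prod.ext_iff] <;> omega
theorem face_box (hp : p ∈ inn n) (d : Fin 4) : p - crn d ∈ box n := by
  rw [Pe.mem_inn] at hp
  rw [Pe.mem_box]
  fin_cases d <;> simp [crn] <;> omega
theorem face_nr (p : P) (d d' : Fin 4) : nr 1 (p - crn d) (p - crn d') := by
  fin_cases d <;> fin_cases d' <;> simp [nr, crn]
theorem crn_sqr (hx : x ∈ box n) (d : Fin 4) : x + crn d ∈ sqr n := by
  rw [Pe.mem_box] at hx
  fin_cases d <;> simp [crn, sqr] <;> omega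
theorem sqr_split {α : Type} [AddCommMonoid α] (f : P → α) :
    ∑ p ∈ sqr n, f p = ∑ p ∈ inn n, f p + ∑ p ∈ ring n, f p := by
  have : inn n ⊆ sqr n := product_subset_product Ioo_subset_Icc_self Ioo_subset_Icc_self
  rw [ring, add_comm, sum_sdiff this]
/-- summation by parts -/
theorem sbp (Φ : P → ℝ) (f : Ed → ℝ) (h0 : ∀ e, e ∉ hes n → f e = 0) (h : ∀ e, f (rev e) = -f e) :
    2 * ∑ p ∈ sqr n, curl f p * Φ p = ∑ e ∈ hes n, f e * dg Φ e.1 e.2 := by
  have k : ∑ p ∈ sqr n, curl f p * Φ p = ∑ e ∈ hes n, f e * Φ (e.1 + crn (e.2 + 1)) := by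
    simp only [curl, sum_mul]
    rw [← sum_product' (f := fun p d => f (p - crn (d + 1), d) * Φ p)]
    symm
    refine sum_bij_ne_zero (fun e _ _ => (e.1 + crn (e.2 + 1), e.2))
      (fun e he _ => mem_product.2 ⟨crn_sqr (mem_hes.1 he).1 _, mem_univ _⟩) ?_ ?_ ?_
    · rintro ⟨x, d⟩ _ _ ⟨y, d'⟩ _ _ h
      obtain ⟨h1, rfl⟩ := Prod.mk.inj h
      exact Prod.ext (add_right_cancel h1) rfl
    · rintro ⟨p, d⟩ _ hb
      have he : (p - crn (d + 1), d) ∈ hes n := by
        by_contra c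
        exact hb (by simp [h0 _ c])
      exact ⟨_, he, by simpa using hb, by simp⟩
    · intro e _ _
      simp
  have k2 : ∑ e ∈ hes n, f e * Φ (e.1 + crn (e.2 + 1)) = -∑ e ∈ hes n, f e * Φ (e.1 + crn e.2) := by
    rw [← sum_neg_distrib]
    refine sum_nbij' rev rev (fun _ => rev_hes.2) (fun _ => rev_hes.2) (fun e _ => rev_rev e)
      (fun e _ => rev_rev e) fun e _ => ?_
    rw [(rev_crn e).1, h, neg_mul, neg_neg]
  simp only [dg, mul_sub, sum_sub_distrib]
  rw [two_mul, k]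
  linarith
theorem dir_ring {θ : P → ℝ} (h : Dir n θ) (hp : p ∈ ring n) : θ p = 0 := by
  obtain ⟨x, y⟩ := p
  rw [ring, Finset.mem_sdiff, Pe.mem_inn] at hp
  simp only [sqr, mem_product, mem_Icc] at hp
  have a1 := (h (x, y)).1
  have a2 := (h (x, y)).2.1
  have a3 := (h (-x, y)).2.2.1
  have a4 := (h (x, -y)).2.2.2
  dsimp only at a1 a2 a3 a4
  rcases (by omega : x = 0 ∨ y = 0 ∨ x = n ∨ y = n) with rfl | rfl | rfl | rfl
  · rw [neg_zero] at a1; linarith
  · rw [neg_zero] at a2; linarith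
  · rw [show -(n : ℤ) + 2 * n = n by ring] at a3; linarith
  · rw [show -(n : ℤ) + 2 * n = n by ring] at a4; linarith
theorem zw_ring (ω : Om) (hp : p ∈ ring n) : zw n ω p = 0 := by
  obtain ⟨x, y⟩ := p
  rw [ring, Finset.mem_sdiff, Pe.mem_inn] at hp
  simp only [sqr, mem_product, mem_Icc] at hp
  have k0 : sg n 0 = 0 := by simp [sg]
  have k1 : sg n n = 0 := by
    rcases Nat.eq_zero_or_pos n with rfl | h
    · exact k0
    · rw [sg, if_pos (.inr (Int.emod_eq_of_lt (by omega) (by omega)))]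
  rcases (by omega : x = 0 ∨ y = 0 ∨ x = n ∨ y = n) with rfl | rfl | rfl | rfl <;>
    simp [zw, ext, k0, k1]
theorem zw_inn (ω : Om) (hp : p ∈ inn n) : zw n ω p = ω (4, p) / 4 := by
  rw [Pe.mem_inn] at hp
  have k : ∀ x : ℤ, 0 < x → x < n → sg n x = 1 ∧ fold n x = x := fun x a b => by
    have : x % (2 * n) = x := Int.emod_eq_of_lt (by omega) (by omega)
    rw [sg, fold, this, if_neg (by omega), if_pos b, if_pos b.le]
    exact ⟨rfl, rfl⟩
  simp [zw, ext, k _ hp.1.1 hp.1.2, k _ hp.2.1 hp.2.2]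
  ring
theorem Et_ee {t z : ℝ} (ht : t ≠ 0) (hz : z = t ∨ z = 0) : EE t z := by
  intro J
  rcases hz with rfl | rfl
  · have : (z : ℂ) ≠ 0 := by exact_mod_cast ht
    rw [Et, mul_comm Complex.I ((z * J : ℝ) : ℂ), Complex.exp_mul_I]
    push_cast
    field_simp
    ring
  · simp [Et]

end Pool.Agent.Lib.MP_9cc147_pr.Cx.I
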