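import Pool.Agent.Lib.MP_9cc147_pr.Cx.I.Noi

/-! Both weights are bounded and measurable. -/

open scoped Classical Topology
open Finset MeasureTheory ProbabilityTheory Filter

noncomputable section
namespace Pool.Agent.Lib.MP_9cc147_pr.Cx.I

variable {o : Mod} {n : ℕ}

theorem int_prob (h : Ok o) : IsProbabilityMeasure (mu0 o.mh) := by
  have := mh_prob h
  have : ∀ i : ℕ × P, IsProbabilityMeasure (if i.1 < 4 then o.mh else gaussianReal 0 1) :=
    fun i => by split_ifs <;> infer_instance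
  unfold mu0
  infer_instance

theorem int_zw (n : ℕ) (p : P) : Measurable fun ω => zw n ω p := by
  simp only [zw, ext, Pi.smul_apply, smul_eq_mul]
  fun_prop

theorem int_rho (o : Mod) (n : ℕ) (S : Finset P) (δ : Form o.R) (p : P) :
    Measurable fun ω => o.rho n S δ ω p := by
  refine measurable_const.add (Finset.measurable_sum _ fun d _ => ?_)
  simp only [Mod.xi]
  split_ifs <;> fun_prop

theorem int_FFm (h : Ok o) (c : Ed → ℝ) {Ξ : Om → Fld} (hΞ : ∀ p, Measurable fun ω => Ξ ω p) :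
    Measurable fun ω => FF o n c (fun e => ω (e.2.val, e.1) = 0) (Ξ ω) := by
  refine Finset.measurable_prod _ fun e _ => ?_
  have m : Measurable fun ω => dg (Ξ ω) e.1 e.2 := (hΞ _).sub (hΞ _)
  exact (((m.pow_const 2).const_mul _).cexp).mul (Measurable.ite
    ((measurable_pi_apply (e.2.val, e.1)) (measurableSet_singleton 0))
    ((hl_cont h).measurable.comp m) measurable_const)

theorem int_FF (h : Ok o) : ∃ K : ℝ, 0 ≤ K ∧ ∀ (δ : Form o.R) (u : Ed → Prop) (Ξ : Fld),
    ‖FF o n (cc o δ) u Ξ‖ ≤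
      K * Real.exp (3 / 8 * ∑ e ∈ hes n, dg (fun p => (Ξ p).im) e.1 e.2 ^ 2) := by
  obtain ⟨K, K1, hK⟩ := hl_le h
  refine ⟨∏ _e ∈ hes n, K, prod_nonneg fun _ _ => by linarith, fun δ u Ξ => ?_⟩
  rw [FF, norm_prod, mul_sum, Real.exp_sum, ← prod_mul_distrib]
  refine prod_le_prod (fun _ _ => norm_nonneg _) fun e _ => ?_
  have e1 : dg (fun p => (Ξ p).im) e.1 e.2 = (dg Ξ e.1 e.2).im := (Complex.sub_im _ _).symm
  rw [e1]
  generalize dg Ξ e.1 e.2 = D
  have c0 : 0 ≤ cc o δ e ∧ cc o δ e ≤ 1 / 4 := by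
    have := h.e0
    have := h.e1
    unfold cc Mod.eta
    split_ifs <;> constructor <;> linarith
  have h1 : ‖Complex.exp (-(cc o δ e : ℂ) * D ^ 2)‖ ≤ Real.exp (D.im ^ 2 / 4) := by
    rw [Complex.norm_exp]
    refine Real.exp_le_exp.2 ?_
    simp only [sq, Complex.mul_re, Complex.neg_re, Complex.ofReal_re, Complex.neg_im,
      Complex.ofReal_im]
    nlinarith [mul_self_nonneg D.re, mul_self_nonneg D.im, c0.1, c0.2]
  have h2 : ‖if u e then o.hl D else 1‖ ≤ K * Real.exp (D.im ^ 2 / 8) := by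
    split_ifs
    · exact hK D
    · rw [norm_one]
      exact one_le_mul_of_one_le_of_one_le K1 (Real.one_le_exp (by positivity))
  rw [norm_mul]
  refine (mul_le_mul h1 h2 (norm_nonneg _) (Real.exp_pos _).le).trans (le_of_eq ?_)
  rw [mul_left_comm, ← Real.exp_add]
  congr 2
  ring

theorem int_dg {v : P → ℝ} (hv : ∀ p, p ∉ inn n → v p = 0) :
    ∑ e ∈ hes n, dg v e.1 e.2 ^ 2 ≤ 16 * ∑ p ∈ inn n, v p ^ 2 := by
  have k : ∀ u : P, ∑ x ∈ box n, v (x + u) ^ 2 ≤ ∑ p ∈ inn n, v p ^ 2 := fun u =>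
    calc ∑ x ∈ box n, v (x + u) ^ 2 = ∑ p ∈ (box n).map (addRightEmbedding u), v p ^ 2 :=
          (sum_map _ (addRightEmbedding u) fun p => v p ^ 2).symm
      _ ≤ ∑ p ∈ (box n).map (addRightEmbedding u) ∪ inn n, v p ^ 2 :=
          sum_le_sum_of_subset_of_nonneg subset_union_left fun _ _ _ => sq_nonneg _
      _ = _ := (sum_subset subset_union_right fun p _ hp => by rw [hv p hp]; norm_num).symm
  refine (sum_le_sum_of_subset_of_nonneg (filter_subset _ _) fun _ _ _ => sq_nonneg _).trans ?_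
  rw [sum_product_right]
  refine (sum_le_card_nsmul _ _ (4 * ∑ p ∈ inn n, v p ^ 2) fun d _ => ?_).trans (le_of_eq ?_)
  · refine (sum_le_sum (g := fun x => 2 * v (x + crn (d + 1)) ^ 2 + 2 * v (x + crn d) ^ 2)
      fun x _ => ?_).trans ?_
    · unfold dg
      nlinarith [sq_nonneg (v (x + crn (d + 1)) + v (x + crn d))]
    · rw [sum_add_distrib, ← mul_sum, ← mul_sum]
      linarith [k (crn (d + 1)), k (crn d)]
  · rw [card_univ, Fintype.card_fin, nsmul_eq_mul]
    push_cast
    ring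

theorem wu_int (h : Ok o) (Θ : P → ℝ) (δ : Form o.R) : Integrable (wu o n Θ δ) (mu0 o.mh) := by
  have := int_prob h
  obtain ⟨K, K0, hK⟩ := int_FF (n := n) h
  have m1 := int_zw n
  have m2 := int_rho o n (box n) δ
  refine Integrable.of_bound (Measurable.aestronglyMeasurable (((int_FFm h _ fun p => ?_).const_mul
    _).mul ?_)) (‖(kk o n δ : ℂ)‖ * K) (.of_forall fun ω => ?_)
  · exact measurable_const.add (Complex.measurable_ofReal.comp (m1 p))
  · exact ((Complex.measurable_ofReal.comp (Finset.measurable_sum _ fun p _ =>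
      (m2 p).mul ((m1 p).const_add _))).const_mul _).cexp
  · rw [wu, norm_mul, norm_mul, Complex.norm_exp_I_mul_ofReal, mul_one]
    refine mul_le_mul_of_nonneg_left ((hK _ _ _).trans (le_of_eq ?_)) (norm_nonneg _)
    simp [cf, dg]
theorem ws_int (h : Ok o) (Θ : P → ℝ) (δ : Form o.R) : Integrable (ws o n Θ δ) (mu0 o.mh) := by
  have := int_prob h
  obtain ⟨K, K0, hK⟩ := int_FF (n := n) h
  have m1 := int_zw n
  have m2 := int_rho o n (box n) δ
  refine Integrable.of_bound (Measurable.aestronglyMeasurable (((int_FFm h _ fun p => ?_).const_mul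
    _).mul ?_)) (‖(kk o n δ : ℂ)‖ * K) (.of_forall fun ω => ?_)
  · refine (measurable_const.add (Complex.measurable_ofReal.comp (m1 p))).add ?_
    split_ifs
    · exact ((Complex.measurable_ofReal.comp (m2 p)).const_mul _).div_const _
    · exact measurable_const
  · exact ((Complex.measurable_ofReal.comp (Finset.measurable_sum _ fun p _ =>
      ((m2 p).pow_const 2).div_const _)).neg.add ((Complex.measurable_ofReal.comp
        (Finset.measurable_sum _ fun p _ => (m2 p).mul_const _)).const_mul _)).cexp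
  · rw [ws, norm_mul, norm_mul, mul_assoc, Complex.exp_add, norm_mul,
      Complex.norm_exp_I_mul_ofReal, mul_one, ← Complex.ofReal_neg, Complex.norm_exp_ofReal]
    generalize o.rho n (box n) δ ω = ρ
    refine mul_le_mul_of_nonneg_left ((mul_le_mul_of_nonneg_right (hK _ _ _)
      (Real.exp_pos _).le).trans ?_) (norm_nonneg _)
    rw [mul_assoc, ← Real.exp_add]
    refine mul_le_of_le_one_right K0 (Real.exp_le_one_iff.2 ?_)
    have h1 := int_dg (n := n) (v := fun p => (shf n Θ ρ ω p).im) fun p hp => by simp [shf, hp]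
    have h2 : ∑ p ∈ inn n, (shf n Θ ρ ω p).im ^ 2 = (∑ p ∈ inn n, ρ p ^ 2 / 32) / 8 := by
      rw [sum_div]
      refine sum_congr rfl fun p hp => ?_
      simp [shf, hp]
      ring
    have h3 : 0 ≤ ∑ p ∈ inn n, ρ p ^ 2 / 32 := sum_nonneg fun _ _ => by positivity
    linarith

end Pool.Agent.Lib.MP_9cc147_pr.Cx.I
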