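import Pool.Agent.Lib.MP_9cc147_pr.Cx.I.Geo

/-! Expansion in labels. -/

open scoped Classical Topology
open Finset MeasureTheory ProbabilityTheory Filter

noncomputable section
namespace Pool.Agent.Lib.MP_9cc147_pr.Cx.I

theorem eds_rev {n : ℕ} {e : Ed} (he : e ∈ hes n) : rev e ∈ eds n ↔ e ∉ eds n := by
  obtain ⟨x, d⟩ := e
  rw [eds, mem_filter, mem_filter, and_iff_right he, and_iff_right (rev_hes.2 he)]
  fin_cases d <;> simp [rev]

theorem neg_Wl {R : ℕ} {w : Gp R} (h : w ∈ Wl R) : -w ∈ Wl R := by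
  rw [Wl, mem_union, mem_Wk (by omega), mem_Wk le_rfl] at h ⊢
  rwa [nrm_neg]

theorem prod_hes {β : Type} [CommMonoid β] (n : ℕ) (f : Ed → β) :
    ∏ e ∈ hes n, f e = ∏ e ∈ eds n, f e * f (rev e) := by
  have hs : eds n ⊆ hes n := filter_subset _ _
  rw [prod_mul_distrib, ← prod_sdiff hs, mul_comm]
  congr 1
  refine prod_nbij' rev rev (fun e he => ?_) (fun e he => ?_) (fun e _ => rev_rev e)
    (fun e _ => rev_rev e) fun e _ => by rw [rev_rev]
  · exact (eds_rev (Finset.mem_sdiff.1 he).1).2 (Finset.mem_sdiff.1 he).2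
  · exact Finset.mem_sdiff.2 ⟨rev_hes.2 (hs he), fun c => (eds_rev (hs he)).1 c he⟩

theorem lab_exp (R n : ℕ) (g : Gp R → Ed → ℂ) :
    ∏ e ∈ eds n, ∑ w ∈ Wl R, g w e * g (-w) (rev e) =
      ∑ δ ∈ forms R n (box n), ∏ e ∈ hes n, g (δ e) e := by
  have hs : eds n ⊆ hes n := filter_subset _ _
  rw [prod_sum]
  symm
  refine sum_bij (fun δ _ e _ => δ e) ?_ ?_ ?_ ?_
  · intro δ hδ
    exact mem_pi.2 fun e he => (mem_forms.1 hδ).2.2.2 e (hs he) (mem_hes.1 (hs he)).1
      (mem_hes.1 (hs he)).2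
  · intro δ hδ δ' hδ' h
    obtain ⟨-, a1, a2, -⟩ := mem_forms.1 hδ
    obtain ⟨-, b1, b2, -⟩ := mem_forms.1 hδ'
    rw [he_box] at a1 b1
    have k : ∀ e ∈ eds n, δ e = δ' e := fun e he => congrFun (congrFun h e) he
    funext e
    by_cases he : e ∈ hes n
    · by_cases h2 : e ∈ eds n
      · exact k e h2
      · exact neg_injective (by rw [← a2, ← b2, k _ ((eds_rev he).2 h2)])
    · rw [a1 e he, b1 e he]
  · intro f hf
    have w : ∀ e ∈ hes n, (if h : e ∈ eds n then f e h else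
        if h : rev e ∈ eds n then -f _ h else 0) ∈ Wl R := fun e he => by
      by_cases h : e ∈ eds n
      · rw [dif_pos h]; exact mem_pi.1 hf e h
      · rw [dif_neg h, dif_pos ((eds_rev he).2 h)]; exact neg_Wl (mem_pi.1 hf _ _)
    refine ⟨fun e => if h : e ∈ eds n then f e h else if h : rev e ∈ eds n then -f _ h else 0,
      mem_forms.2 ⟨fun e he => mem_union_left _ (w e (mem_he.1 he).1), fun e he => ?_,
        fun e => ?_, fun e he _ _ => w e he⟩, funext fun e => funext fun he => dif_pos he⟩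
    · rw [he_box] at he
      rw [dif_neg fun c => he (hs c), dif_neg fun c => he (rev_hes.1 (hs c))]
    · by_cases h : e ∈ eds n
      · have h2 : rev e ∉ eds n := fun c => (eds_rev (hs h)).1 c h
        have h3 : rev (rev e) ∈ eds n := by rwa [rev_rev]
        rw [dif_neg h2, dif_pos h3, dif_pos h]
        have k : ∀ x (hx : x ∈ eds n), x = e → f x hx = f e h := by rintro _ _ rfl; rfl
        rw [k _ h3 (rev_rev e)]
      · by_cases h2 : rev e ∈ eds n
        · rw [dif_pos h2, dif_neg h, dif_pos h2, neg_neg]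
        · rw [dif_neg h2, dif_neg (by rwa [rev_rev]), dif_neg h, dif_neg h2, neg_zero]
  · intro δ hδ
    rw [prod_hes, ← prod_attach]
    exact prod_congr rfl fun e _ => by rw [(mem_forms.1 hδ).2.2.1]

end Pool.Agent.Lib.MP_9cc147_pr.Cx.I
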