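import Pool.Agent.Lib.MP_9cc147_pr.Cx.I.Cut

/-! Charges of the pieces. -/

open scoped Classical Topology
open Finset MeasureTheory ProbabilityTheory Filter

noncomputable section
namespace Pool.Agent.Lib.MP_9cc147_pr.Cx.I

variable {o : Mod} {L m n : ℕ} {ω : Om} {γ : Gam} {a : P → Gp o.R} {δ : Form o.R} {i : Ix} {p : P}
  {S : Finset P}

theorem rho_H_zero (o : Mod) : o.H 0 = 0 := by simp [Mod.H]

theorem rho_eq (o : Mod) (n : ℕ) (S : Finset P) (δ : Form o.R) (ω : Om) (p : P) :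
    o.rho n S δ ω p = curl (fun e => o.H (δ e) + Mod.xi n S ω e) p := by
  simp only [Mod.rho, curl, H_sum, sum_add_distrib]

theorem rho_xi_rev (n : ℕ) (S : Finset P) (ω : Om) (e : Ed) :
    Mod.xi n S ω (rev e) = -Mod.xi n S ω e := by
  unfold Mod.xi
  by_cases h : e ∈ hes n
  · rw [if_pos (rev_hes.2 h), if_pos h, rev_rev, neg_sub]
  · rw [if_neg (fun h' => h (rev_hes.1 h')), if_neg h, neg_zero]

theorem rho_sbp (hδ : δ ∈ forms o.R n S) (Φ : P → ℝ) :
    2 * ∑ p ∈ sqr n, o.rho n S δ ω p * Φ p =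
      ∑ e ∈ hes n, (o.H (δ e) + Mod.xi n S ω e) * dg Φ e.1 e.2 := by
  obtain ⟨-, h0, h1, -⟩ := mem_forms.1 hδ
  simp only [rho_eq]
  refine sbp Φ (fun e => o.H (δ e) + Mod.xi n S ω e) (fun e he => ?_) fun e => ?_
  · rw [h0 e fun h => he (mem_he.1 h).1, rho_H_zero, Mod.xi, if_neg he, add_zero]
  · rw [h1, H_neg, rho_xi_rev, neg_add]

theorem rho_neutral (hδ : δ ∈ forms o.R n S) : ∑ p ∈ sqr n, o.rho n S δ ω p = 0 := by
  have h := rho_sbp (ω := ω) hδ fun _ => 1
  simp only [mul_one, dg, sub_self, mul_zero, sum_const_zero] at h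
  linarith

theorem rho_off (hδ : δ ∈ forms o.R n S) (h : ∀ d, p - crn d ∉ S) : o.rho n S δ ω p = 0 := by
  obtain ⟨-, h0, -, -⟩ := mem_forms.1 hδ
  rw [rho_eq]
  refine sum_eq_zero fun d _ => ?_
  have h1 : (rev (p - crn (d + 1), d)).1 ∉ S := by rw [rev_face]; exact h _
  beta_reduce
  rw [h0 _ fun h' => (mem_he.1 h').2.elim (h _) h1, rho_H_zero, Mod.xi, if_neg (h (d + 1)),
    if_neg h1]
  simp

theorem rho_reg (hL : 0 < L) (hi : i ∈ ixs (box m) γ) {x : P} :
    x ∈ under L (tl i) ↔ par L x ∈ box m ∧ ix (box m) γ (par L x) = i := by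
  rw [mem_under hL, mem_tl hi]

theorem rho_single (hL : 0 < L) {x : P} (hx : x ∈ box (L * m)) (w : ℝ) :
    ∑ i ∈ ixs (box m) γ, (if x ∈ under L (tl i) then w else 0) = w := by
  have hb := (par_box hL).2 hx
  rw [sum_eq_single_of_mem (ix (box m) γ (par L x)) (ix_mem hb) fun j hj hne =>
    if_neg fun h => hne ((rho_reg hL hj).1 h).2.symm, if_pos ((rho_reg hL (ix_mem hb)).2 ⟨hb, rfl⟩)]

theorem rho_xi_sum (hL : 0 < L) (e : Ed) :
    ∑ i ∈ ixs (box m) γ, Mod.xi (L * m) (under L (tl i)) ω e =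
      Mod.xi (L * m) (box (L * m)) ω e := by
  unfold Mod.xi
  by_cases h : e ∈ hes (L * m)
  · obtain ⟨h1, h2⟩ := mem_hes.1 h
    simp only [if_pos h, if_pos h1, if_pos h2]
    rw [sum_sub_distrib, rho_single hL h1, rho_single hL h2]
  · simp only [if_neg h, sum_const_zero]

theorem rho_sum (hL : 5 ≤ L) (hγ : cmp (box m) γ) (hδ : δ ∈ forms o.R (L * m) (box (L * m)))
    (hs : Sm (L * m) L m ω γ a δ) (p : P) :
    ∑ i ∈ ixs (box m) γ, o.rho (L * m) (under L (tl i)) (cut (L * m) (under L (tl i)) a δ) ω p =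
      o.rho (L * m) (box (L * m)) δ ω p := by
  simp only [rho_eq, curl]
  rw [sum_comm]
  refine sum_congr rfl fun d _ => ?_
  rw [sum_add_distrib, rho_xi_sum (by omega), ← H_sum, ← Finset.sum_apply, cut_sum hL hγ hδ hs]

/-- no charge at an inner vertex whose four faces lie in a pure set of tiles -/
theorem rho_pure (hL : 0 < L) {V : Finset P} {s : Lab} (h : pureOn n L s a ω δ V)
    (hp : p ∈ inn n) (hV : ∀ d, par L (p - crn d) ∈ V) (S : Finset P) :
    o.rho n S (cut n S a δ) ω p = 0 := by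
  have he (d : Fin 4) : (p - crn (d + 1), d) ∈ hes n :=
    mem_hes.2 ⟨face_box hp _, by rw [rev_face]; exact face_box hp _⟩
  have hω (e : Ed) (he : e ∈ hes n) (hv : par L e.1 ∈ V) : ω (e.2.val, e.1) = 0 :=
    (h.1 _ hv).2.2 e he ((mem_cell hL).2 rfl)
  have h1 : curl (Mod.xi n S ω) p = 0 := by
    refine sum_eq_zero fun d _ => ?_
    rw [Mod.xi, hω _ (he d) (hV _), hω _ (rev_hes.2 (he d)) (by rw [rev_face]; exact hV _)]
    simp
  have h2 (d : Fin 4) : cut n S a δ (p - crn (d + 1), d) =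
      (if p - crn (d + 2) ∈ S then a (p - crn (d + 2)) else 0) -
        if p - crn (d + 1) ∈ S then a (p - crn (d + 1)) else 0 := by
    have g := h.2 _ (he d) ((mem_under hL).2 (hV _))
      ((mem_under hL).2 (by rw [rev_face]; exact hV _))
    unfold cut
    rw [if_pos (he d), g, rev_face]
    by_cases u : p - crn (d + 1) ∈ S <;> by_cases v : p - crn (d + 2) ∈ S <;> simp [u, v]
  have h3 : curl (cut n S a δ) p = 0 := by
    unfold curl
    simp only [h2]
    rw [sum_sub_distrib, sub_eq_zero]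
    exact Fintype.sum_equiv (Equiv.addRight 1) _ _ fun d => by
      rw [Equiv.coe_addRight, add_assoc d 1 1]; rfl
  rw [Mod.rho, h1, h3, rho_H_zero, add_zero]

theorem rho_on (hL : 5 ≤ L) (hγ : cmp (box m) γ) (hδ : δ ∈ forms o.R (L * m) (box (L * m)))
    (hs : Sm (L * m) L m ω γ a δ) (hi : i ∈ ixs (box m) γ) (hp : p ∈ inn (L * m)) {d : Fin 4}
    (hd : p - crn d ∈ under L (tl i)) :
    o.rho (L * m) (under L (tl i)) (cut (L * m) (under L (tl i)) a δ) ω p =
      o.rho (L * m) (box (L * m)) δ ω p := by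
  have hL0 : 0 < L := by omega
  rw [← rho_sum hL hγ hδ hs p]
  symm
  refine sum_eq_single_of_mem i hi fun j hj hne => ?_
  by_cases h : ∀ d', p - crn d' ∉ under L (tl j)
  · exact rho_off (cut_forms hL hγ hδ hs hj) h
  push Not at h
  obtain ⟨d', hd'⟩ := h
  obtain ⟨b1, e1⟩ := (rho_reg hL0 hi).1 hd
  obtain ⟨b2, e2⟩ := (rho_reg hL0 hj).1 hd'
  obtain ⟨s, h0, -⟩ := seam hγ b1 b2 (nr_par hL0 (face_nr p d d')) (by rw [e1, e2]; exact hne.symm)
  have key (d0 : Fin 4) (h : γ (par L (p - crn d0)) = some s) :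
      o.rho (L * m) (under L (tl j)) (cut (L * m) (under L (tl j)) a δ) ω p = 0 :=
    rho_pure hL0 (hs _ ((par_box hL0).2 (face_box hp d0)) s h) hp (fun d1 => mem_near1.2
      ⟨(par_box hL0).2 (face_box hp d1), nr_par hL0 (face_nr p d0 d1)⟩) _
  exact h0.elim (key d) (key d')

end Pool.Agent.Lib.MP_9cc147_pr.Cx.I
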