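import Pool.Agent.Lib.MP_9cc147_pr.Cx.I.Fsh
import Pool.Agent.Lib.MP_9cc147_pr.Cx.I.Int
import Pool.Agent.Lib.MP_9cc147_pr.Cx.I.Lab
import Pool.Agent.Lib.MP_9cc147_pr.Cx.I.Rho

/-! The dual weight as a sum over configurations. -/

open scoped Classical Topology
open Finset MeasureTheory ProbabilityTheory Filter

noncomputable section
namespace Pool.Agent.Lib.MP_9cc147_pr.Cx.I

variable {o : Mod} {n : ℕ}

theorem ana_int (m : Measure ℝ) [IsProbabilityMeasure m] {F : Om → ℂ} (hF : Integrable F (mu0 m)) :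
    Integrable (fun y => F (mix y)) ((mu0 m).prod PP) ∧
      ∫ ω, F ω ∂mu0 m = ∫ y, F (mix y) ∂(mu0 m).prod PP := by
  refine ⟨(mix_mp m).integrable_comp_of_integrable hF, ?_⟩
  rw [← integral_map (mix_mp m).measurable.aemeasurable
    (by rw [(mix_mp m).map_eq]; exact hF.aestronglyMeasurable), (mix_mp m).map_eq]

theorem ana_e (a b : Om) (e : Ed) : mix (a, b) (e.2.val, e.1) = a (e.2.val, e.1) :=
  if_pos e.2.isLt

theorem ana_zw (a b : Om) : zw n (mix (a, b)) = zw n b := rfl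

theorem ana_rho (S : Finset P) (δ : Form o.R) (a b : Om) :
    o.rho n S δ (mix (a, b)) = o.rho n S δ a := by
  have h : Mod.xi n S (mix (a, b)) = Mod.xi n S a := by
    funext e
    simp only [Mod.xi, ana_e]
  funext p
  simp only [Mod.rho, h]

theorem ana_PP : IsProbabilityMeasure PP := by unfold PP; infer_instance

theorem ana_mu0 (m : Measure ℝ) [IsProbabilityMeasure m] : IsProbabilityMeasure (mu0 m) := by
  unfold mu0
  haveI : ∀ i : ℕ × P, IsProbabilityMeasure (if i.1 < 4 then m else gaussianReal 0 1) := fun i => by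
    split_ifs <;> infer_instance
  infer_instance

theorem ana_shift (h : Ok o) (Θ : P → ℝ) (δ : Form o.R) (a : Om) :
    ∫ b, wu o n Θ δ (mix (a, b)) ∂PP = ∫ b, ws o n Θ δ (mix (a, b)) ∂PP := by
  have hc : ∀ e, 0 ≤ cc o δ e := fun e => by
    have := h.e0
    unfold cc Mod.eta
    split_ifs <;> positivity
  have h1 : ∀ b : Om, ∑ p ∈ sqr n, o.rho n (box n) δ a p * (Θ p + zw n b p) =
      ∑ p ∈ sqr n, o.rho n (box n) δ a p * Θ p + ∑ p ∈ inn n, o.rho n (box n) δ a p * zw n b p := by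
    intro b
    simp only [mul_add, sum_add_distrib]
    rw [sqr_split fun p => o.rho n (box n) δ a p * zw n b p,
      sum_eq_zero (s := ring n) fun p hp => by rw [zw_ring b hp, mul_zero], add_zero]
  have h2 : ∀ b : Om, wu o n Θ δ (mix (a, b)) = (kk o n δ *
      Complex.exp (Complex.I * (∑ p ∈ sqr n, o.rho n (box n) δ a p * Θ p : ℝ))) *
      (FF o n (cc o δ) (fun e => a (e.2.val, e.1) = 0) (cf Θ + cf (zw n b)) *
        Complex.exp (Complex.I * (∑ p ∈ inn n, o.rho n (box n) δ a p * zw n b p : ℝ))) := by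
    intro b
    simp only [wu, ana_rho, ana_zw, ana_e]
    rw [h1, Complex.ofReal_add, mul_add, Complex.exp_add]
    ring
  have h3 : ∀ b : Om, ws o n Θ δ (mix (a, b)) = (kk o n δ *
      Complex.exp (Complex.I * (∑ p ∈ sqr n, o.rho n (box n) δ a p * Θ p : ℝ))) *
      (Complex.exp (-(∑ p ∈ inn n, o.rho n (box n) δ a p ^ 2 / 32 : ℝ)) *
        FF o n (cc o δ) (fun e => a (e.2.val, e.1) = 0) (shf n Θ (o.rho n (box n) δ a) b)) := by
    intro b
    have h4 : shf n Θ (o.rho n (box n) δ a) (mix (a, b)) = shf n Θ (o.rho n (box n) δ a) b := rfl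
    simp only [ws, ana_rho, ana_e, h4]
    rw [Complex.exp_add]
    ring
  simp only [h2, h3, integral_const_mul]
  rw [fshift h _ hc]

theorem ana_xi (a : Om) (Φ : P → ℝ) : ∑ e ∈ hes n, Mod.xi n (box n) a e * dg Φ e.1 e.2 =
    2 * ∑ e ∈ hes n, a (e.2.val, e.1) * dg Φ e.1 e.2 := by
  have h1 : ∑ e ∈ hes n, a ((rev e).2.val, (rev e).1) * dg Φ e.1 e.2 =
      -∑ e ∈ hes n, a (e.2.val, e.1) * dg Φ e.1 e.2 := by
    rw [← sum_neg_distrib]
    refine sum_nbij' rev rev (fun e he => rev_hes.2 he) (fun e he => rev_hes.2 he)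
      (fun e _ => rev_rev e) (fun e _ => rev_rev e) fun e _ => ?_
    rw [dg_rev]; ring
  rw [two_mul, ← sub_neg_eq_add, ← h1, ← sum_sub_distrib]
  refine sum_congr rfl fun e he => ?_
  rw [Mod.xi, if_pos he, if_pos (mem_hes.1 he).1, if_pos (mem_hes.1 he).2, sub_mul]

theorem ana_pt (h : Ok o) (hw : ∀ y : ℝ, nuh o.nu y = ∑ w ∈ Wl o.R, o.xw w *
      Complex.exp (Complex.I * o.H w * y - o.eta w * y ^ 2 / 2) *
        (∫ x, o.hB x * Complex.exp (Complex.I * x * y)) ^ 2) (Θ : P → ℝ) (b : Om) :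
    ∏ e ∈ eds n, nuh o.nu (dg (cf Θ + cf (zw n b)) e.1 e.2) =
      ∑ δ ∈ forms o.R n (box n), ∫ a, wu o n Θ δ (mix (a, b)) ∂mu0 o.mh := by
  obtain ⟨Φ, hΦ⟩ : ∃ Φ : P → ℝ, Φ = fun p => Θ p + zw n b p := ⟨_, rfl⟩
  have hy : ∀ e : Ed, dg (cf Θ + cf (zw n b)) e.1 e.2 = ((dg Φ e.1 e.2 : ℝ) : ℂ) := fun e => by
    simp [dg, cf, hΦ]
  have hg : ∀ w : Gp o.R, isG (-w) ↔ isG w := fun w => by simp [isG]
  have hx : ∀ w : Gp o.R, o.xw (-w) = o.xw w := fun w => by simp [Mod.xw, hg]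
  have he : ∀ w : Gp o.R, o.eta (-w) = o.eta w := fun w => by simp [Mod.eta, hg]
  have h1 := lab_exp o.R n fun w e => (Real.sqrt (o.xw w) : ℝ) *
    Complex.exp (Complex.I * o.H w * (dg Φ e.1 e.2 : ℝ) / 2 - o.eta w * (dg Φ e.1 e.2 : ℝ) ^ 2 / 4) *
      hat o (dg Φ e.1 e.2)
  refine (prod_congr rfl fun e _ => ?_).trans (h1.trans (sum_congr rfl fun δ hδ => ?_))
  · rw [hy, hw]
    refine sum_congr rfl fun w _ => ?_
    have h2 : ((o.xw w : ℝ) : ℂ) = (Real.sqrt (o.xw w) : ℝ) * (Real.sqrt (o.xw w) : ℝ) := by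
      rw [← Complex.ofReal_mul, Real.mul_self_sqrt (xw_nonneg h w)]
    have h3 : Complex.exp (Complex.I * o.H w * (dg Φ e.1 e.2 : ℝ) -
        o.eta w * (dg Φ e.1 e.2 : ℝ) ^ 2 / 2) =
        Complex.exp (Complex.I * o.H w * (dg Φ e.1 e.2 : ℝ) / 2 -
          o.eta w * (dg Φ e.1 e.2 : ℝ) ^ 2 / 4) *
        Complex.exp (Complex.I * (-o.H w : ℝ) * (-dg Φ e.1 e.2 : ℝ) / 2 -
          o.eta w * (-dg Φ e.1 e.2 : ℝ) ^ 2 / 4) := by
      rw [← Complex.exp_add]; congr 1; push_cast; ring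
    rw [dg_rev, hat_neg h, hx, he, H_neg, h3]
    conv_lhs => rw [h2]
    unfold hat
    ring
  · rw [prod_mul_distrib, hat_prod h fun e => dg Φ e.1 e.2, ← integral_const_mul]
    refine integral_congr_ae (.of_forall fun a => ?_)
    have h2 := rho_sbp (ω := a) hδ Φ
    simp only [add_mul, sum_add_distrib, ana_xi] at h2
    have h3 : ∑ p ∈ sqr n, o.rho n (box n) δ a p * (Θ p + zw n b p) =
        ∑ e ∈ hes n, (o.H (δ e) * dg Φ e.1 e.2 / 2 + a (e.2.val, e.1) * dg Φ e.1 e.2) := by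
      rw [sum_add_distrib, ← sum_div]
      simp only [hΦ] at h2 ⊢
      linarith
    simp only [wu, ana_rho, ana_zw, ana_e, FF, kk, hy]
    rw [h3, Complex.ofReal_sum, mul_sum, Complex.exp_sum, Complex.ofReal_prod, ← prod_mul_distrib,
      ← prod_mul_distrib, ← prod_mul_distrib]
    refine prod_congr rfl fun e _ => ?_
    have h4 : Complex.exp (Complex.I * o.H (δ e) * (dg Φ e.1 e.2 : ℝ) / 2 -
        o.eta (δ e) * (dg Φ e.1 e.2 : ℝ) ^ 2 / 4) *
        Complex.exp (Complex.I * (a (e.2.val, e.1) * dg Φ e.1 e.2 : ℝ)) =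
        Complex.exp (-(cc o δ e : ℂ) * (dg Φ e.1 e.2 : ℝ) ^ 2) * Complex.exp (Complex.I *
          (o.H (δ e) * dg Φ e.1 e.2 / 2 + a (e.2.val, e.1) * dg Φ e.1 e.2 : ℝ)) := by
      rw [← Complex.exp_add, ← Complex.exp_add]; congr 1; unfold cc; push_cast; ring
    rw [Complex.ofReal_mul (Real.sqrt (o.xw (δ e)))]
    linear_combination ((Real.sqrt (o.xw (δ e)) : ℝ) : ℂ) * ((1 + o.eh : ℝ) : ℂ) *
      (if a (e.2.val, e.1) = 0 then o.hl (dg Φ e.1 e.2 : ℝ) else 1) * h4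

theorem wu_ws (h : Ok o) (Θ : P → ℝ) (δ : Form o.R) :
    ∫ ω, wu o n Θ δ ω ∂mu0 o.mh = ∫ ω, ws o n Θ δ ω ∂mu0 o.mh := by
  have := mh_prob h
  have := ana_PP
  have := ana_mu0 o.mh
  obtain ⟨a1, a2⟩ := ana_int o.mh (wu_int (n := n) h Θ δ)
  obtain ⟨b1, b2⟩ := ana_int o.mh (ws_int (n := n) h Θ δ)
  rw [a2, b2, integral_prod _ a1, integral_prod _ b1]
  simp only [ana_shift h]
theorem W0_wu (h : Ok o) (hw : ∀ y : ℝ, nuh o.nu y = ∑ w ∈ Wl o.R, o.xw w *
      Complex.exp (Complex.I * o.H w * y - o.eta w * y ^ 2 / 2) *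
        (∫ x, o.hB x * Complex.exp (Complex.I * x * y)) ^ 2) (Θ : P → ℝ) :
    W0 o.nu n (cf Θ) = ∑ δ ∈ forms o.R n (box n), ∫ ω, wu o n Θ δ ω ∂mu0 o.mh := by
  have := mh_prob h
  have := ana_PP
  have := ana_mu0 o.mh
  unfold W0
  simp only [ana_pt h hw]
  rw [integral_finsetSum _ fun δ _ => (ana_int o.mh (wu_int (n := n) h Θ δ)).1.integral_prod_right]
  refine sum_congr rfl fun δ _ => ?_
  obtain ⟨a1, a2⟩ := ana_int o.mh (wu_int (n := n) h Θ δ)
  rw [a2, integral_prod_symm _ a1]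

end Pool.Agent.Lib.MP_9cc147_pr.Cx.I
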