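import Pool.Agent.Lib.MP_9cc147_pr.Cx.I.Reg

/-! Cutting a configuration into local configurations. -/

open scoped Classical Topology
open Finset MeasureTheory ProbabilityTheory Filter

noncomputable section
namespace Pool.Agent.Lib.MP_9cc147_pr.Cx.I

variable {R L m : ℕ} {ω : Om} {γ : Gam} {a a' : P → Gp R} {δ δ' : Form R} {T : P} {s : Lab}
  {i : Ix} {V : Finset P}

theorem pureOn_mono {n : ℕ} {V' : Finset P} (h : pureOn n L s a ω δ V) (hV : V' ⊆ V) :
    pureOn n L s a ω δ V' := by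
  have hu : under L V' ⊆ under L V := biUnion_subset_biUnion_of_subset_left _ hV
  exact ⟨fun T hT => h.1 T (hV hT), fun e he h1 h2 => h.2 e he (hu h1) (hu h2)⟩
theorem pureOn_congr {n : ℕ} (h : pureOn n L s a ω δ V) (ha : ∀ x ∈ under L V, a' x = a x)
    (hδ : ∀ e ∈ hes n, e.1 ∈ under L V → (rev e).1 ∈ under L V → δ' e = δ e) :
    pureOn n L s a' ω δ' V := by
  refine ⟨fun T hT => ?_, fun e he h1 h2 => ?_⟩
  · have hc : ∀ x ∈ cell L T, a' x = a x := fun x hx => ha x (mem_biUnion.2 ⟨T, hT, hx⟩)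
    obtain ⟨p1, p2, p3⟩ := h.1 T hT
    refine ⟨fun x hx hq => ?_, fun x hx y hy hq hq' hne j => ?_, p3⟩
    · rw [hc x hx]
      exact p1 x hx hq
    · rw [hc x hx, hc y hy]
      exact p2 x hx y hy hq hq' hne j
  · rw [hδ e he h1 h2, ha _ h1, ha _ h2]
    exact h.2 e he h1 h2
theorem cut_near {n : ℕ} {T' : P} (h : pureOn n L s a ω δ (near 1 (box m) {T}))
    (hT : T' ∈ box m) (hn : nr 1 T T') : pureOn n L s a ω δ {T'} :=
  pureOn_mono h (singleton_subset_iff.2 (mem_near1.2 ⟨hT, hn⟩))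
theorem stt_some (hu : Uni R L m) : stt (L * m) L m ω δ T = some s ↔
    T ∈ box m ∧ ∃ a, pureOn (L * m) L s a ω δ (near 1 (box m) {T}) := by
  unfold stt
  constructor
  · intro h
    split_ifs at h with h1
    obtain rfl := Option.some.inj h
    exact ⟨h1.1, h1.2.choose_spec⟩
  · rintro ⟨hT, b, hb⟩
    have h1 : T ∈ box m ∧ ∃ s a, pureOn (L * m) L s a ω δ (near 1 (box m) {T}) := ⟨hT, s, b, hb⟩
    rw [dif_pos h1]
    obtain ⟨b', hb'⟩ := h1.2.choose_spec
    exact congrArg some (hu T _ _ _ _ _ _ _ hT (cut_near hb' hT (nr_refl 1 T))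
      (cut_near hb hT (nr_refl 1 T))).1
theorem stt_mem (hu : Uni R L m) :
    stt (L * m) L m ω δ ∈ (cfgs univ none (box m)).filter (cmp (box m)) := by
  refine mem_filter.2 ⟨mem_cfgs.2 ⟨fun _ _ => mem_univ _, fun x hx => dif_neg fun h => hx h.1⟩, ?_⟩
  intro x hx y hy hn s t hs ht
  obtain ⟨-, b, hb⟩ := (stt_some hu).1 hs
  obtain ⟨-, b', hb'⟩ := (stt_some hu).1 ht
  exact (hu y _ _ _ _ _ _ _ hy (cut_near hb hy hn) (cut_near hb' hy (nr_refl 1 y))).1
theorem stt_sm (hL : 0 < L) (hu : Uni R L m) :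
    ∃ a, Sm (L * m) L m ω (stt (L * m) L m ω δ) a δ := by
  refine ⟨fun x => if h : ∃ y : Lab × (P → Gp R), pureOn (L * m) L y.1 y.2 ω δ {par L x}
    then h.choose.2 x else 0, fun T hT s hs => ?_⟩
  obtain ⟨-, b, hb⟩ := (stt_some hu).1 hs
  refine pureOn_congr hb (fun x hx => ?_) fun _ _ _ _ => rfl
  have hx' := (mem_under hL).1 hx
  have hp := pureOn_mono hb (singleton_subset_iff.2 hx')
  have h : ∃ y : Lab × (P → Gp R), pureOn (L * m) L y.1 y.2 ω δ {par L x} := ⟨(s, b), hp⟩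
  simp only [dif_pos h]
  exact (hu _ _ _ _ _ _ _ _ (mem_near1.1 hx').1 h.choose_spec hp).2 x ((mem_cell hL).2 rfl)
/-- an edge between two regions lies near a good tile -/
theorem sm_seam (hL : 5 ≤ L) (hγ : cmp (box m) γ) (hs : Sm (L * m) L m ω γ a δ) {e : Ed}
    (he : e ∈ hes (L * m)) (hne : ix (box m) γ (par L e.1) ≠ ix (box m) γ (par L (rev e).1)) :
    δ e = a (rev e).1 - a e.1 ∧ nrm (a e.1) + nrm (a (rev e).1) = 2 ∧
      (nrm (a e.1) = 1 ∨ a e.1 = 0 ∨ a (rev e).1 = 0) ∧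
      ∃ s, pureOn (L * m) L s a ω δ {par L e.1} := by
  have h0 : 0 < L := by omega
  have b1 : par L e.1 ∈ box m := (par_box h0).2 (mem_hes.1 he).1
  have b2 : par L (rev e).1 ∈ box m := (par_box h0).2 (mem_hes.1 he).2
  have hn : nr 1 (par L e.1) (par L (rev e).1) := nr_par h0 (nr_rev e)
  have hp : par L e.1 ≠ par L (rev e).1 := fun h => hne (by rw [h])
  obtain ⟨s, hg, -⟩ := seam hγ b1 b2 hn hne
  obtain ⟨W, hW, w1, w2⟩ : ∃ W, pureOn (L * m) L s a ω δ W ∧ par L e.1 ∈ W ∧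
      par L (rev e).1 ∈ W := by
    rcases hg with hg | hg
    · exact ⟨_, hs _ b1 s hg, mem_near1.2 ⟨b1, nr_refl _ _⟩, mem_near1.2 ⟨b2, hn⟩⟩
    · exact ⟨_, hs _ b2 s hg, mem_near1.2 ⟨b1, nr_symm hn⟩, mem_near1.2 ⟨b2, nr_refl _ _⟩⟩
  have q1 := seam_cq hL he hp
  have q2 := seam_cq hL (rev_hes.2 he) (by rw [rev_rev]; exact hp.symm)
  have n1 := (hW.1 _ w1).1 _ ((mem_cell h0).2 rfl) q1
  have n2 := (hW.1 _ w2).1 _ ((mem_cell h0).2 rfl) q2
  have ht := typ_rev s e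
  refine ⟨hW.2 e he ((mem_under h0).2 w1) ((mem_under h0).2 w2), by omega, ?_, s,
    pureOn_mono hW (singleton_subset_iff.2 w1)⟩
  rw [← nrm_zero, ← nrm_zero]
  omega
theorem cut_mem (hL : 0 < L) (hi : i ∈ ixs (box m) γ) {x : P} (hx : x ∈ box (L * m)) :
    x ∈ under L (tl i) ↔ ix (box m) γ (par L x) = i := by
  rw [mem_under hL, mem_tl hi, and_iff_right ((par_box hL).2 hx)]
theorem cut_out (hL : 0 < L) (hi : i ∈ ixs (box m) γ) {e : Ed} (he : e ∈ hes (L * m))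
    (h1 : e.1 ∈ under L (tl i)) (h2 : (rev e).1 ∉ under L (tl i)) :
    ix (box m) γ (par L e.1) ≠ ix (box m) γ (par L (rev e).1) := fun h =>
  h2 ((cut_mem hL hi (mem_hes.1 he).2).2 (h ▸ (cut_mem hL hi (mem_hes.1 he).1).1 h1))
theorem cut_uni (hL : 5 ≤ L) (hu : Uni R L m) (hγ : cmp (box m) γ) (hs : Sm (L * m) L m ω γ a δ)
    (hs' : Sm (L * m) L m ω γ a' δ) (hi : i ∈ ixs (box m) γ) :
    cut (L * m) (under L (tl i)) a δ = cut (L * m) (under L (tl i)) a' δ := by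
  have h0 : 0 < L := by omega
  have key : ∀ e ∈ hes (L * m), e.1 ∈ under L (tl i) → (rev e).1 ∉ under L (tl i) →
      a e.1 = a' e.1 := fun e he h1 h2 => by
    obtain ⟨-, -, -, s, hp⟩ := sm_seam hL hγ hs he (cut_out h0 hi he h1 h2)
    obtain ⟨-, -, -, s', hp'⟩ := sm_seam hL hγ hs' he (cut_out h0 hi he h1 h2)
    exact (hu _ _ _ _ _ _ _ _ ((par_box h0).2 (mem_hes.1 he).1) hp hp').2 _ ((mem_cell h0).2 rfl)
  funext e
  unfold cut
  split_ifs with he h1 h2 h2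
  · rfl
  · rw [key e he h1 h2]
  · exact key (rev e) (rev_hes.2 he) h2 (by rw [rev_rev]; exact h1)
  · rfl
  · rfl
theorem cut_sum (hL : 5 ≤ L) (hγ : cmp (box m) γ) (hδ : δ ∈ forms R (L * m) (box (L * m)))
    (hs : Sm (L * m) L m ω γ a δ) :
    ∑ i ∈ ixs (box m) γ, cut (L * m) (under L (tl i)) a δ = δ := by
  have h0 : 0 < L := by omega
  funext e
  rw [Finset.sum_apply]
  by_cases he : e ∈ hes (L * m)
  · have b1 := (mem_hes.1 he).1
    have b2 := (mem_hes.1 he).2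
    have i1 : ix (box m) γ (par L e.1) ∈ ixs (box m) γ := ix_mem ((par_box h0).2 b1)
    have i2 : ix (box m) γ (par L (rev e).1) ∈ ixs (box m) γ := ix_mem ((par_box h0).2 b2)
    by_cases hne : ix (box m) γ (par L e.1) = ix (box m) γ (par L (rev e).1)
    · rw [sum_eq_single_of_mem _ i1]
      · simp only [cut, if_pos he, if_pos ((cut_mem h0 i1 b1).2 rfl),
          if_pos ((cut_mem h0 i1 b2).2 hne.symm)]
      · intro j hj hj'
        simp only [cut, if_pos he, if_neg ((cut_mem h0 hj b1).not.2 hj'.symm),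
          if_neg ((cut_mem h0 hj b2).not.2 (hne ▸ hj'.symm))]
    · rw [sum_eq_add_of_mem _ _ i1 i2 hne, (sm_seam hL hγ hs he hne).1]
      · simp only [cut, if_pos he, if_pos ((cut_mem h0 i1 b1).2 rfl),
          if_pos ((cut_mem h0 i2 b2).2 rfl), if_neg ((cut_mem h0 i1 b2).not.2 (Ne.symm hne)),
          if_neg ((cut_mem h0 i2 b1).not.2 hne)]
        exact neg_add_eq_sub _ _
      · intro j hj hj'
        simp only [cut, if_pos he, if_neg ((cut_mem h0 hj b1).not.2 hj'.1.symm),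
          if_neg ((cut_mem h0 hj b2).not.2 hj'.2.symm)]
  · rw [(mem_forms.1 hδ).2.1 e (by rw [he_box]; exact he)]
    exact sum_eq_zero fun j _ => if_neg he
theorem cut_forms (hL : 5 ≤ L) (hγ : cmp (box m) γ) (hδ : δ ∈ forms R (L * m) (box (L * m)))
    (hs : Sm (L * m) L m ω γ a δ) (hi : i ∈ ixs (box m) γ) :
    cut (L * m) (under L (tl i)) a δ ∈ forms R (L * m) (under L (tl i)) := by
  have h0 : 0 < L := by omega
  obtain ⟨-, -, d3, d4⟩ := mem_forms.1 hδ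
  have w : ∀ v : Gp R, nrm v ≤ 2 → v ∈ Wl R ∪ Wk R 1 := fun v hv => by
    simp only [Wl, mem_union, mem_Wk (show 0 ≤ 2 by omega), mem_Wk (show 1 ≤ 2 by omega),
      mem_Wk (le_refl 2)]
    omega
  refine mem_forms.2 ⟨fun e he => ?_, fun e he => ?_, fun e => ?_, fun e he h1 h2 => ?_⟩
  · obtain ⟨he, hm⟩ := mem_he.1 he
    unfold cut
    rw [if_pos he]
    split_ifs with h1 h2 h2
    · exact mem_union_left _ (d4 e he (mem_hes.1 he).1 (mem_hes.1 he).2)
    · have := (sm_seam hL hγ hs he (cut_out h0 hi he h1 h2)).2.1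
      exact w _ (by rw [nrm_neg]; omega)
    · have := (sm_seam hL hγ hs (rev_hes.2 he)
        (cut_out h0 hi (rev_hes.2 he) h2 (by rw [rev_rev]; exact h1))).2.1
      exact w _ (by omega)
    · exact absurd hm (not_or.2 ⟨h1, h2⟩)
  · rw [mem_he] at he
    unfold cut
    split_ifs with h h1 h2 h2
    · exact absurd ⟨h, Or.inl h1⟩ he
    · exact absurd ⟨h, Or.inl h1⟩ he
    · exact absurd ⟨h, Or.inr h2⟩ he
    · rfl
    · rfl
  · simp only [cut, rev_hes, rev_rev, d3 e]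
    split_ifs <;> simp
  · simp only [cut, if_pos he, if_pos h1, if_pos h2]
    exact d4 e he (mem_hes.1 he).1 (mem_hes.1 he).2

end Pool.Agent.Lib.MP_9cc147_pr.Cx.I
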