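import Pool.Agent.Lib.MP_9cc147_pr.Cx.I.Cut

/-! The pieces are local configurations. -/

open scoped Classical Topology
open Finset MeasureTheory ProbabilityTheory Filter

noncomputable section
namespace Pool.Agent.Lib.MP_9cc147_pr.Cx.I

variable {R L m : ℕ} {ω : Om} {a : P → Gp R} {δ : Form R} {i : Ix}

theorem cut2_in {n : ℕ} {S : Finset P} {e : Ed} (he : e ∈ hes n) (h1 : e.1 ∈ S)
    (h2 : (rev e).1 ∈ S) : cut n S a δ e = δ e := by
  simp only [cut, if_pos he, if_pos h1, if_pos h2]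

theorem cut2_out {n : ℕ} {S : Finset P} {e : Ed} (he : e ∈ hes n) (h1 : e.1 ∈ S)
    (h2 : (rev e).1 ∉ S) : cut n S a δ e = -a e.1 := by
  simp only [cut, if_pos he, if_pos h1, if_neg h2]

/-- labels that serve on a bad component near one of its tiles and agree with the phases around
would make the tile good -/
theorem cut2_patch (L0 : 0 < L) (hu : Uni R L m) {γ : Gam} (hs : Sm (L * m) L m ω γ a δ)
    {X : Finset P} (hX : X ⊆ box m) {T : P} {s : Lab} {a' : P → Gp R}
    (h1 : pureOn (L * m) L s a' ω δ (near 1 X {T}))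
    (h2 : ∀ T' ∈ near 1 (box m) {T}, T' ∉ X → γ T' = some s) :
    pureOn (L * m) L s (fun x => if par L x ∈ X then a' x else a x) ω δ
      (near 1 (box m) {T}) := by
  have hin : ∀ U ∈ near 1 (box m) {T}, U ∈ X → pureOn (L * m) L s a' ω δ {U} := fun U hU hUX =>
    pureOn_mono h1 (singleton_subset_iff.2 (mem_near1.2 ⟨hUX, (mem_near1.1 hU).2⟩))
  have hout : ∀ W ∈ near 1 (box m) {T}, W ∉ X →
      pureOn (L * m) L s a ω δ (near 1 (box m) {W}) := fun W hW hWX =>
    hs W (mem_near1.1 hW).1 s (h2 W hW hWX)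
  have hag : ∀ W ∈ near 1 (box m) {T}, W ∉ X → ∀ x, par L x ∈ near 1 (box m) {T} →
      nr 1 W (par L x) → (if par L x ∈ X then a' x else a x) = a x := by
    intro W hW hWX x hx hn
    split_ifs with hxX
    · exact (hu _ s s a' a ω ω δ (hX hxX) (hin _ hx hxX) (pureOn_mono (hout W hW hWX)
        (singleton_subset_iff.2 (mem_near1.2 ⟨hX hxX, hn⟩)))).2 x ((mem_cell L0).2 rfl)
    · rfl
  refine ⟨fun U hU => ?_, fun e he e1 e2 => ?_⟩
  · by_cases hUX : U ∈ X
    · refine (pureOn_congr (δ' := δ) (hin U hU hUX) (fun x hx => ?_) fun _ _ _ _ => rfl).1 U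
        (mem_singleton_self U)
      rw [mem_under L0, mem_singleton] at hx
      exact if_pos (hx ▸ hUX)
    · refine (pureOn_congr (δ' := δ) (pureOn_mono (hout U hU hUX) (singleton_subset_iff.2
        (mem_near1.2 ⟨(mem_near1.1 hU).1, nr_refl 1 U⟩))) (fun x hx => ?_)
        fun _ _ _ _ => rfl).1 U (mem_singleton_self U)
      rw [mem_under L0, mem_singleton] at hx
      exact if_neg (hx ▸ hUX)
  · rw [mem_under L0] at e1 e2
    have hn := nr_par L0 (nr_rev e)
    have key : ∀ W ∈ near 1 (box m) {T}, W ∉ X → nr 1 W (par L e.1) → nr 1 W (par L (rev e).1) →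
        δ e = (if par L (rev e).1 ∈ X then a' (rev e).1 else a (rev e).1) -
          if par L e.1 ∈ X then a' e.1 else a e.1 := by
      intro W hW hWX n1 n2
      rw [hag W hW hWX _ e1 n1, hag W hW hWX _ e2 n2]
      exact (hout W hW hWX).2 e he ((mem_under L0).2 (mem_near1.2 ⟨(mem_near1.1 e1).1, n1⟩))
        ((mem_under L0).2 (mem_near1.2 ⟨(mem_near1.1 e2).1, n2⟩))
    by_cases x1 : par L e.1 ∈ X
    · by_cases x2 : par L (rev e).1 ∈ X
      · simp only [if_pos x1, if_pos x2]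
        exact h1.2 e he ((mem_under L0).2 (mem_near1.2 ⟨x1, (mem_near1.1 e1).2⟩))
          ((mem_under L0).2 (mem_near1.2 ⟨x2, (mem_near1.1 e2).2⟩))
      · exact key _ e2 x2 (nr_symm hn) (nr_refl 1 _)
    · exact key _ e1 x1 (nr_refl 1 _) hn

theorem cut_lfs (hL : 5 ≤ L) (hu : Uni R L m) (hδ : δ ∈ forms R (L * m) (box (L * m)))
    (hs : Sm (L * m) L m ω (stt (L * m) L m ω δ) a δ) (hi : i ∈ ixs (box m) (stt (L * m) L m ω δ)) :
    cut (L * m) (under L (tl i)) a δ ∈ lfs R (L * m) L m ω (stt (L * m) L m ω δ) i := by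
  have L0 : 0 < L := by omega
  have hf := cut_forms hL (mem_filter.1 (stt_mem hu)).2 hδ hs hi
  rcases i with T | X
  · obtain ⟨hT, hg⟩ := inl_mem.1 hi
    obtain ⟨s, hs'⟩ := Option.ne_none_iff_exists'.1 hg
    simp only [tl, Sum.elim_inl, lfs, hs', Option.getD_some, pur] at hf ⊢
    refine mem_filter.2 ⟨under_one L T ▸ hf, a, ?_, fun e he e1 e2 => ?_⟩
    · exact pureOn_congr (pureOn_mono (hs T hT s hs') (singleton_subset_iff.2
        (mem_near1.2 ⟨hT, nr_refl 1 T⟩))) (fun _ _ => rfl) fun e he e1 e2 => cut2_in he e1 e2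
    · rw [under_one]
      exact cut2_out he e1 e2
  · have hX := inr_mem.1 hi
    have hXD : X ⊆ box m := fun T hT => (comps_bad hX hT).1
    have sub : ∀ T x, x ∈ under L (near 1 X {T}) → x ∈ under L X := fun T x hx =>
      (mem_under L0).2 (mem_near1.1 ((mem_under L0).1 hx)).1
    simp only [tl, Sum.elim_inr, id, lfs, adm] at hf ⊢
    refine mem_filter.2 ⟨hf, fun T' hT' => ?_, fun T hT => ?_⟩
    · obtain ⟨s, hs'⟩ := bdry_good hX hT'
      obtain ⟨hD, -, hn⟩ := mem_bdry.1 hT'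
      refine ⟨s, a, by simp only [sgm, if_pos hT', hs'], ?_, fun e he e1 e2 => ?_⟩
      · exact pureOn_congr (pureOn_mono (hs T' hD s hs') fun U hU =>
          mem_near1.2 ⟨hXD (mem_near1.1 hU).1, (mem_near1.1 hU).2⟩) (fun _ _ => rfl)
          fun e he e1 e2 => cut2_in he (sub _ _ e1) (sub _ _ e2)
      · refine cut2_out he e1 fun h => hn ?_
        rw [mem_under L0, (mem_cell L0).1 e2] at h
        exact h
    · rintro ⟨s, a', h1, h2⟩
      have h3 : pureOn (L * m) L s a' ω δ (near 1 X {T}) :=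
        pureOn_congr h1 (fun _ _ => rfl) fun e he e1 e2 =>
          (cut2_in he (sub _ _ e1) (sub _ _ e2)).symm
      have h4 := (stt_some hu).2 ⟨hXD hT, _, cut2_patch L0 hu hs hXD h3 fun T' hT' hn => by
        have hb : T' ∈ bdry (box m) X :=
          mem_bdry.2 ⟨(mem_near1.1 hT').1, ⟨T, hT, (mem_near1.1 hT').2⟩, hn⟩
        have := h2 T' (mem_sdiff.2 ⟨hT', hn⟩)
        simpa only [sgm, if_pos hb] using this⟩
      rw [(comps_bad hX hT).2] at h4
      exact absurd h4 (by simp)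

end Pool.Agent.Lib.MP_9cc147_pr.Cx.I
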