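import Pool.Agent.Lib.MP_9cc147_pr.Cx.D4

/-! Definitions for the identity at scale 0. -/

open scoped Classical Topology
open Finset MeasureTheory ProbabilityTheory Filter

noncomputable section
namespace Pool.Agent.Lib.MP_9cc147_pr.Cx.I

abbrev Ed := P × Fin 4
/-- reduced states: `some s` on a good tile of phase `s`, `none` on a bad tile -/
abbrev Gam := P → Option Lab
def cmp (D : Finset P) (γ : Gam) : Prop :=
  ∀ a ∈ D, ∀ b ∈ D, nr 1 a b → ∀ s t, γ a = some s → γ b = some t → s = t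
def bt (D : Finset P) (γ : Gam) : Finset P := D.filter fun b => γ b = none
def sgm (D : Finset P) (γ : Gam) (X : Finset P) : P → Option Lab :=
  fun b => if b ∈ bdry D X then γ b else none
/-- regions: good tiles and components of bad tiles -/
abbrev Ix := P ⊕ Finset P
def ixs (D : Finset P) (γ : Gam) : Finset Ix :=
  (D.filter fun b => γ b ≠ none).disjSum (comps (bt D γ))
def tl : Ix → Finset P := Sum.elim (fun T => {T}) id
def ix (D : Finset P) (γ : Gam) (T : P) : Ix :=
  if γ T = none then .inr (comp (bt D γ) T) else .inl T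
def sgi (D : Finset P) (γ : Gam) : Ix → P → Option Lab := Sum.elim (fun T _ => γ T) (sgm D γ)
/-- local configurations of a region -/
def lfs (R n L m : ℕ) (ω : Om) (γ : Gam) : Ix → Finset (Form R) :=
  Sum.elim (fun T => pur R n L ω ((γ T).getD 0) T) fun X => adm R n L m ω X (sgm (box m) γ X)
/-- the reduced state of a configuration on the whole box -/
def stt {R : ℕ} (n L m : ℕ) (ω : Om) (δ : Form R) : Gam := fun T =>
  if h : T ∈ box m ∧ ∃ s a, pureOn n L s a ω δ (near 1 (box m) {T}) then some h.2.choose else none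
/-- the labels `a` serve around all good tiles -/
def Sm {R : ℕ} (n L m : ℕ) (ω : Om) (γ : Gam) (a : P → Gp R) (δ : Form R) : Prop :=
  ∀ T ∈ box m, ∀ s, γ T = some s → pureOn n L s a ω δ (near 1 (box m) {T})
/-- the part of `δ` that belongs to the sites `S` -/
def cut {R : ℕ} (n : ℕ) (S : Finset P) (a : P → Gp R) (δ : Form R) : Form R := fun e =>
  if e ∈ hes n then (if e.1 ∈ S then (if (rev e).1 ∈ S then δ e else -a e.1)
    else if (rev e).1 ∈ S then a (rev e).1 else 0) else 0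
/-- a pure tile determines its phase and its labels (the statement `S_uni` at given sizes) -/
def Uni (R L m : ℕ) : Prop := ∀ (T : P) (s s' : Lab) (a a' : P → Gp R) (ω ω' : Om) (δ : Form R),
  T ∈ box m → pureOn (L * m) L s a ω δ {T} → pureOn (L * m) L s' a' ω' δ {T} →
  s = s' ∧ ∀ x ∈ cell L T, a x = a' x

/-- noise from the first argument, Gaussian layers from the second -/
def mix (y : Om × Om) : Om := fun i => if i.1 < 4 then y.1 i else y.2 i
def hat (o : Mod) (y : ℝ) : ℂ := ∫ x, o.hB x * Complex.exp (Complex.I * x * y)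
def FF (o : Mod) (n : ℕ) (c : Ed → ℝ) (u : Ed → Prop) (Ξ : Fld) : ℂ :=
  ∏ e ∈ hes n, (Complex.exp (-(c e : ℂ) * dg Ξ e.1 e.2 ^ 2) *
    if u e then o.hl (dg Ξ e.1 e.2) else 1)
def cc (o : Mod) (δ : Form o.R) (e : Ed) : ℝ := o.eta (δ e) / 4
def kk (o : Mod) (n : ℕ) (δ : Form o.R) : ℝ := ∏ e ∈ hes n, Real.sqrt (o.xw (δ e)) * (1 + o.eh)
/-- the shifted field -/
def shf (n : ℕ) (Θ ρ : P → ℝ) (ω : Om) : Fld :=
  fun p => Θ p + zw n ω p + if p ∈ inn n then Complex.I * ρ p / 16 else 0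
/-- weight of a configuration on the whole box before the shift -/
def wu (o : Mod) (n : ℕ) (Θ : P → ℝ) (δ : Form o.R) (ω : Om) : ℂ :=
  kk o n δ * FF o n (cc o δ) (fun e => ω (e.2.val, e.1) = 0) (cf Θ + cf (zw n ω)) *
    Complex.exp (Complex.I * (∑ p ∈ sqr n, o.rho n (box n) δ ω p * (Θ p + zw n ω p) : ℝ))
/-- and after the shift -/
def ws (o : Mod) (n : ℕ) (Θ : P → ℝ) (δ : Form o.R) (ω : Om) : ℂ :=
  kk o n δ * FF o n (cc o δ) (fun e => ω (e.2.val, e.1) = 0)
      (shf n Θ (o.rho n (box n) δ ω) ω) *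
    Complex.exp (-(∑ p ∈ inn n, o.rho n (box n) δ ω p ^ 2 / 32 : ℝ) +
      Complex.I * (∑ p ∈ sqr n, o.rho n (box n) δ ω p * Θ p : ℝ))
def EE (t z : ℝ) : Prop := ∀ J : ℝ, Et z t J = Complex.exp (Complex.I * (z * J : ℝ))
/-- standing assumptions on the model -/
structure Ok (o : Mod) : Prop where
  h : IsH o.h
  B : 0 < o.Bw
  e0 : 0 < o.η
  e1 : o.η ≤ 1 / 2
  rect : (o.a, o.x1) ∈ rect

end Pool.Agent.Lib.MP_9cc147_pr.Cx.I
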