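import Pool.Agent.Lib.MP_9cc147_pr.Cx.I.Geo

/-! The noise on the half edges. -/

open scoped Classical Topology
open Finset MeasureTheory ProbabilityTheory Filter

noncomputable section
namespace Pool.Agent.Lib.MP_9cc147_pr.Cx.I

variable {o : Mod} {n : ℕ}

theorem i_mrg {ι : Type} (μ ν : ι → Measure ℝ) [∀ i, IsProbabilityMeasure (μ i)]
    [∀ i, IsProbabilityMeasure (ν i)] (S : ι → Prop) [DecidablePred S] :
    MeasurePreserving (fun (y : (ι → ℝ) × (ι → ℝ)) i => if S i then y.1 i else y.2 i)
      ((Measure.infinitePi μ).prod (Measure.infinitePi ν))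
      (Measure.infinitePi fun i => if S i then μ i else ν i) := by
  have hm : Measurable fun (y : (ι → ℝ) × (ι → ℝ)) i => if S i then y.1 i else y.2 i := by
    refine measurable_pi_lambda _ fun i => ?_
    split_ifs <;> fun_prop
  have : ∀ i, IsProbabilityMeasure (if S i then μ i else ν i) := fun i => by
    split_ifs <;> infer_instance
  refine ⟨hm, Measure.eq_infinitePi _ fun s t ht => ?_⟩
  rw [Measure.map_apply hm (MeasurableSet.pi s.countable_toSet fun i _ => ht i)]
  have e : (fun (y : (ι → ℝ) × (ι → ℝ)) i => if S i then y.1 i else y.2 i) ⁻¹' Set.pi s t =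
      Set.pi (s.filter S) t ×ˢ Set.pi (s.filter fun i => ¬ S i) t := by
    ext y
    simp only [Set.mem_preimage, Set.mem_pi, Set.mem_prod, coe_filter, Set.mem_ofPred_eq, mem_coe]
    refine ⟨fun h => ⟨fun i hi => ?_, fun i hi => ?_⟩, fun h i hi => ?_⟩
    · simpa only [if_pos hi.2] using h i hi.1
    · simpa only [if_neg hi.2] using h i hi.1
    · split_ifs with c
      · exact h.1 i ⟨hi, c⟩
      · exact h.2 i ⟨hi, c⟩
  rw [e, Measure.prod_prod, Measure.infinitePi_pi _ fun i _ => ht i,
    Measure.infinitePi_pi _ fun i _ => ht i, ← prod_filter_mul_prod_filter_not s S]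
  congr 1
  · exact prod_congr rfl fun i hi => by rw [if_pos (mem_filter.1 hi).2]
  · exact prod_congr rfl fun i hi => by rw [if_neg (mem_filter.1 hi).2]

instance : IsProbabilityMeasure PP := by unfold PP; infer_instance

instance (m : Measure ℝ) [IsProbabilityMeasure m] : IsProbabilityMeasure (mu0 m) := by
  have : ∀ i : ℕ × P, IsProbabilityMeasure (if i.1 < 4 then m else gaussianReal 0 1) := fun i => by
    split_ifs <;> infer_instance
  unfold mu0; infer_instance


theorem hB_int (h : Ok o) : Integrable o.hB ∧ ∀ x, 0 ≤ o.hB x := by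
  have : Integrable o.h := Integrable.of_integral_ne_zero (by rw [h.h.one]; exact one_ne_zero)
  exact ⟨(this.comp_mul_left' h.B.ne').const_mul _, fun x => mul_nonneg h.B.le (h.h.nonneg _)⟩
theorem hB_cont (h : Ok o) : Continuous o.hB := by
  have := h.h.cont
  unfold Mod.hB
  fun_prop
theorem wd_int (h : Ok o) (S : Set ℝ) (g : ℝ → ℂ) :
    ∫ x, g x ∂(volume.restrict S).withDensity (fun x => ENNReal.ofReal (o.hB x)) =
      ∫ x in S, o.hB x * g x := by
  rw [integral_withDensity_eq_integral_toReal_smul (hB_cont h).measurable.ennreal_ofReal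
    (ae_of_all _ fun _ => ENNReal.ofReal_lt_top)]
  refine integral_congr_ae (ae_of_all _ fun x => ?_)
  simp [ENNReal.toReal_ofReal ((hB_int h).2 x)]
theorem mh_prob (h : Ok o) : IsProbabilityMeasure o.mh := by
  refine ⟨?_⟩
  have e0 : 0 ≤ o.eh := integral_nonneg fun x => (hB_int h).2 x
  have e : ∫⁻ x in {x | o.sig0 < |x|}, ENNReal.ofReal (o.hB x) = ENNReal.ofReal o.eh :=
    (ofReal_integral_eq_lintegral_ofReal (hB_int h).1.integrableOn
      (ae_of_all _ fun x => (hB_int h).2 x)).symm
  rw [Mod.mh, Measure.smul_apply, Measure.add_apply, withDensity_apply _ MeasurableSet.univ,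
    Measure.restrict_univ, e, measure_univ, ENNReal.ofReal_add zero_le_one e0, ENNReal.ofReal_one,
    smul_eq_mul]
  exact ENNReal.inv_mul_cancel (by simp) (by simp)
theorem hat_neg (h : Ok o) (y : ℝ) : hat o (-y) = hat o y := by
  rw [hat, hat, ← integral_neg_eq_self]
  refine integral_congr_ae (ae_of_all _ fun x => ?_)
  simp [Mod.hB, h.h.even]
theorem hl_nuh (h : Ok o) : ∃ lam : Measure ℝ, IsFiniteMeasure lam ∧
    (∀ c : ℝ, Integrable (fun x => Real.exp (c * x)) lam) ∧ ∀ y, o.hl y = nuh lam y := by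
  have hc := hB_cont h
  have fin : IsFiniteMeasure ((volume.restrict {x | |x| ≤ o.sig0}).withDensity
      fun x => ENNReal.ofReal (o.hB x)) :=
    isFiniteMeasure_withDensity_ofReal (hB_int h).1.integrableOn.hasFiniteIntegral
  have ms : MeasurableSet {x : ℝ | |x| ≤ o.sig0} := measurableSet_le (by fun_prop) measurable_const
  refine ⟨_, fin, fun c => ?_, fun y => ?_⟩
  · refine Integrable.of_bound (by fun_prop) (Real.exp (|c| * o.sig0)) ?_
    refine (withDensity_absolutelyContinuous _ _).ae_le ?_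
    filter_upwards [ae_restrict_mem ms] with x hx
    rw [Real.norm_eq_abs, abs_of_pos (Real.exp_pos _), Real.exp_le_exp]
    exact (le_abs_self _).trans ((abs_mul c x).trans_le (by gcongr))
  · rw [nuh, wd_int h, Mod.hl]
theorem hl_cont (h : Ok o) : Continuous o.hl := by
  obtain ⟨lam, f, i, e⟩ := hl_nuh h
  rw [show o.hl = nuh lam from funext e, continuous_iff_continuousAt]
  intro y
  refine continuousAt_of_dominated (bound := fun x => Real.exp ((‖y‖ + 1) * x) +
    Real.exp (-(‖y‖ + 1) * x)) (.of_forall fun z => by fun_prop) ?_ ((i _).add (i _))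
    (ae_of_all _ fun x => by fun_prop)
  filter_upwards [Metric.ball_mem_nhds y one_pos] with z hz
  refine ae_of_all _ fun x => ?_
  have a : |z.im| ≤ ‖y‖ + 1 := (Complex.abs_im_le_norm z).trans
    ((norm_le_norm_add_norm_sub' z y).trans (by
      have := mem_ball_iff_norm.1 hz
      linarith))
  obtain ⟨a1, a2⟩ := abs_le.1 a
  rw [Complex.norm_exp]
  have e : (Complex.I * x * z).re = -(x * z.im) := by simp
  rw [e]
  rcases le_total 0 x with b | b
  · exact le_add_of_le_of_nonneg (Real.exp_le_exp.2 (by nlinarith)) (Real.exp_pos _).le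
  · exact le_add_of_nonneg_of_le (Real.exp_pos _).le (Real.exp_le_exp.2 (by nlinarith))
theorem hl_le (h : Ok o) : ∃ K : ℝ, 1 ≤ K ∧ ∀ y : ℂ, ‖o.hl y‖ ≤ K * Real.exp (y.im ^ 2 / 8) := by
  have ms : MeasurableSet {x : ℝ | |x| ≤ o.sig0} := measurableSet_le (by fun_prop) measurable_const
  have i0 : 0 ≤ ∫ x in {x | |x| ≤ o.sig0}, o.hB x := integral_nonneg fun x => (hB_int h).2 x
  have e1 : 1 ≤ Real.exp (2 * o.sig0 ^ 2) := Real.one_le_exp (by positivity)
  refine ⟨(1 + ∫ x in {x | |x| ≤ o.sig0}, o.hB x) * Real.exp (2 * o.sig0 ^ 2), by nlinarith,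
    fun y => ?_⟩
  refine (norm_integral_le_of_norm_le ((hB_int h).1.integrableOn.mul_const
    (Real.exp (2 * o.sig0 ^ 2) * Real.exp (y.im ^ 2 / 8))) ?_).trans ?_
  · filter_upwards [ae_restrict_mem ms] with x hx
    rw [norm_mul, Complex.norm_real, Real.norm_of_nonneg ((hB_int h).2 x), Complex.norm_exp,
      ← Real.exp_add]
    refine mul_le_mul_of_nonneg_left (Real.exp_le_exp.2 ?_) ((hB_int h).2 x)
    have e : (Complex.I * x * y).re = -(x * y.im) := by simp
    have a : x ^ 2 ≤ o.sig0 ^ 2 := sq_le_sq' (abs_le.1 hx).1 (abs_le.1 hx).2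
    rw [e]
    nlinarith [sq_nonneg (4 * x + y.im)]
  · rw [integral_mul_const, mul_assoc]
    gcongr
    linarith
theorem xw_nonneg (h : Ok o) (w : Gp o.R) : 0 ≤ o.xw w := by
  have a := h.rect.1.1
  have b := h.rect.2.1
  have c := h.rect.2.2
  dsimp only at a b c
  unfold Mod.xw
  split_ifs
  · refine Real.rpow_nonneg ?_ _
    have := Real.add_one_le_exp o.a
    have : o.x1 ^ 4 ≤ (9 / 10) ^ 4 := pow_le_pow_left₀ (by linarith) c 4
    linarith
  · linarith
  · exact zero_le_one
theorem mix_mp (m : Measure ℝ) [IsProbabilityMeasure m] :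
    MeasurePreserving mix ((mu0 m).prod PP) (mu0 m) := by
  have : ∀ i : ℕ × P, IsProbabilityMeasure (if i.1 < 4 then m else gaussianReal 0 1) := fun i => by
    split_ifs <;> infer_instance
  have h := i_mrg (fun i : ℕ × P => if i.1 < 4 then m else gaussianReal 0 1)
    (fun _ => gaussianReal 0 1) fun i => i.1 < 4
  have e : (fun i : ℕ × P => if i.1 < 4 then (if i.1 < 4 then m else gaussianReal 0 1)
      else gaussianReal 0 1) = fun i : ℕ × P => if i.1 < 4 then m else gaussianReal 0 1 := by
    funext i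
    split_ifs <;> rfl
  rw [e] at h
  exact h
theorem hat_mh (h : Ok o) (y : ℝ) : hat o y = ∫ x, (1 + o.eh : ℝ) *
    (if x = 0 then o.hl y else 1) * Complex.exp (Complex.I * (x * y : ℝ)) ∂o.mh := by
  have e0 : 0 ≤ o.eh := integral_nonneg fun x => (hB_int h).2 x
  have ms : MeasurableSet {x : ℝ | |x| ≤ o.sig0} := measurableSet_le (by fun_prop) measurable_const
  have mt : MeasurableSet {x : ℝ | o.sig0 < |x|} := measurableSet_lt measurable_const (by fun_prop)
  have s0 : 0 ≤ o.sig0 := inv_nonneg.2 (Real.sqrt_nonneg _)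
  have fin : IsFiniteMeasure ((volume.restrict {x | o.sig0 < |x|}).withDensity
      fun x => ENNReal.ofReal (o.hB x)) :=
    isFiniteMeasure_withDensity_ofReal (hB_int h).1.integrableOn.hasFiniteIntegral
  have me : Measurable fun x : ℝ => (if x = 0 then o.hl y else 1) *
      Complex.exp (Complex.I * (x * y : ℝ)) :=
    (Measurable.ite (measurableSet_singleton 0) measurable_const measurable_const).mul (by fun_prop)
  have it : ∀ μ : Measure ℝ, IsFiniteMeasure μ → Integrable (fun x : ℝ =>
      (if x = 0 then o.hl y else 1) * Complex.exp (Complex.I * (x * y : ℝ))) μ := fun μ _ =>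
    Integrable.of_bound me.aestronglyMeasurable (‖o.hl y‖ + 1) (ae_of_all _ fun x => by
      rw [norm_mul, Complex.norm_exp_I_mul_ofReal, mul_one]
      split_ifs <;> simp)
  have ih : Integrable fun x : ℝ => (o.hB x : ℂ) * Complex.exp (Complex.I * x * y) :=
    (hB_int h).1.ofReal.mul_bdd (c := 1) (by fun_prop) (ae_of_all _ fun x => by
      rw [mul_assoc, ← Complex.ofReal_mul, Complex.norm_exp_I_mul_ofReal])
  simp only [mul_assoc ((1 + o.eh : ℝ) : ℂ)]
  rw [integral_const_mul, Mod.mh, integral_smul_measure, integral_add_measure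
    (it _ inferInstance) (it _ fin), integral_dirac, wd_int h, ENNReal.toReal_inv,
    ENNReal.toReal_ofReal (by linarith), Complex.real_smul, ← mul_assoc, ← Complex.ofReal_mul,
    mul_inv_cancel₀ (by linarith), hat, ← integral_add_compl ms ih]
  have ec : {x : ℝ | |x| ≤ o.sig0}ᶜ = {x | o.sig0 < |x|} := by ext; simp
  rw [ec, setIntegral_congr_fun (f := fun x : ℝ => (o.hB x : ℂ) * ((if x = 0 then o.hl y else 1) *
    Complex.exp (Complex.I * (x * y : ℝ)))) (g := fun x : ℝ => (o.hB x : ℂ) *
    Complex.exp (Complex.I * x * y)) mt fun x hx => by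
      have : x ≠ 0 := by
        rintro rfl
        exact absurd hx (by simpa using s0)
      simp [this, mul_assoc]]
  simp [Mod.hl]
/-- the noise variables of different half edges are independent -/
theorem pi_prod (m : Measure ℝ) [IsProbabilityMeasure m] (E : Finset Ed) (f : Ed → ℝ → ℂ)
    (hf : ∀ e, Measurable (f e)) :
    ∫ ξ, ∏ e ∈ E, f e (ξ (e.2.val, e.1)) ∂mu0 m = ∏ e ∈ E, ∫ x, f e x ∂m := by
  have : ∀ i : ℕ × P, IsProbabilityMeasure (if i.1 < 4 then m else gaussianReal 0 1) := fun i => by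
    split_ifs <;> infer_instance
  have inj : Function.Injective fun e : E => ((e.1.2.val, e.1.1) : ℕ × P) := fun a b h =>
    Subtype.ext (Prod.ext (Prod.mk.inj h).2 (Fin.ext (Prod.mk.inj h).1))
  have ind : iIndepFun (fun (e : E) (ξ : Om) => f e (ξ (e.1.2.val, e.1.1))) (mu0 m) :=
    ((iIndepFun_infinitePi (P := fun i : ℕ × P => if i.1 < 4 then m else gaussianReal 0 1)
      (X := fun _ x => x) fun _ => measurable_id).precomp inj).comp (fun e => f e) fun e => hf e
  rw [← prod_coe_sort]
  simp_rw [← prod_coe_sort E]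
  rw [ind.integral_fun_prod_eq_prod_integral fun e =>
    ((hf e).comp (measurable_pi_apply _)).aestronglyMeasurable]
  refine prod_congr rfl fun e _ => ?_
  have mp := measurePreserving_eval_infinitePi
    (fun i : ℕ × P => if i.1 < 4 then m else gaussianReal 0 1) (e.1.2.val, e.1.1)
  rw [if_pos e.1.2.isLt] at mp
  exact (integral_map mp.measurable.aemeasurable (hf e).aestronglyMeasurable).symm.trans
    (by rw [mu0, mp.map_eq])
theorem hat_prod (h : Ok o) (y : Ed → ℝ) : ∏ e ∈ hes n, hat o (y e) =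
    ∫ ξ, ∏ e ∈ hes n, ((1 + o.eh : ℝ) * (if ξ (e.2.val, e.1) = 0 then o.hl (y e) else 1) *
      Complex.exp (Complex.I * (ξ (e.2.val, e.1) * y e : ℝ))) ∂mu0 o.mh := by
  have := mh_prob h
  rw [pi_prod o.mh (hes n) fun e x => (1 + o.eh : ℝ) * (if x = 0 then o.hl (y e) else 1) *
    Complex.exp (Complex.I * (x * y e : ℝ))]
  · exact prod_congr rfl fun e _ => hat_mh h _
  · intro e
    exact (measurable_const.mul (Measurable.ite (measurableSet_singleton 0) measurable_const
      measurable_const)).mul (by fun_prop)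

end Pool.Agent.Lib.MP_9cc147_pr.Cx.I
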