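import Pool.Agent.Lib.MP_9cc147_pr.Cx.I.Shift
import Pool.Agent.Lib.MP_9cc147_pr.Cx.I.Noi

/-! The shift for the weight of the whole box. -/

open scoped Classical Topology
open Finset MeasureTheory ProbabilityTheory Filter

noncomputable section
namespace Pool.Agent.Lib.MP_9cc147_pr.Cx.I

variable {o : Mod} {n : ℕ}

theorem fsh_gauss {c : ℝ} (hc : 0 ≤ c) (y : ℂ) :
    nuh (gaussianReal 0 (2 * c).toNNReal) y = Complex.exp (-(c : ℂ) * y ^ 2) := by
  have := complexMGF_id_gaussianReal (μ := 0) (v := (2 * c).toNNReal) (Complex.I * y)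
  rw [Real.coe_toNNReal _ (by positivity)] at this
  simp only [complexMGF, id] at this
  unfold nuh
  simp_rw [mul_right_comm Complex.I _ y]
  rw [this]
  congr 1
  push_cast
  linear_combination (c : ℂ) * y ^ 2 * Complex.I_mul_I

theorem fsh_pt {q : P} (hq : q ∈ sqr n) (g : Om) (ρ : P → ℝ) :
    (zw n g q : ℂ) + (if q ∈ inn n then Complex.I * ρ q / 16 else 0) =
      ∑ p ∈ inn n, ((if p = q then 1 / 4 else 0 : ℝ) : ℂ) *
        (g (4, p) + Complex.I * (ρ p / 4 : ℝ)) := by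
  simp only [apply_ite Complex.ofReal, ite_mul, Complex.ofReal_zero, zero_mul, sum_ite_eq']
  split_ifs with h
  · rw [zw_inn g h]; push_cast; ring
  · rw [zw_ring g (mem_sdiff.2 ⟨hq, h⟩)]; simp

theorem fshift (h : Ok o) (c : Ed → ℝ) (hc : ∀ e, 0 ≤ c e) (u : Ed → Prop) (Θ ρ : P → ℝ) :
    ∫ g, FF o n c u (cf Θ + cf (zw n g)) *
        Complex.exp (Complex.I * (∑ p ∈ inn n, ρ p * zw n g p : ℝ)) ∂PP =
      Complex.exp (-(∑ p ∈ inn n, ρ p ^ 2 / 32 : ℝ)) * ∫ g, FF o n c u (shf n Θ ρ g) ∂PP := by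
  obtain ⟨lam, hl1, hl2, hl3⟩ := hl_nuh h
  let m : hes n × Bool → Measure ℝ := fun i =>
    if i.2 then (if u i.1 then lam else Measure.dirac 0) else gaussianReal 0 (2 * c i.1).toNNReal
  have : ∀ i, IsFiniteMeasure (m i) := fun i => by
    simp only [m]; split_ifs <;> infer_instance
  have hm : ∀ i (a : ℝ), Integrable (fun x => Real.exp (a * x)) (m i) := fun i a => by
    simp only [m]
    split_ifs
    · exact hl2 a
    · exact integrable_dirac (by simp)
    · exact integrable_exp_mul_gaussianReal a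
  have hF : ∀ Ξ : Fld, FF o n c u Ξ = ∏ i : hes n × Bool, nuh (m i) (dg Ξ i.1.1.1 i.1.1.2) := by
    intro Ξ
    rw [FF, ← prod_coe_sort, Fintype.prod_prod_type]
    refine prod_congr rfl fun e _ => ?_
    rw [Fintype.prod_bool, mul_comm]
    simp only [m, if_true, Bool.false_eq_true, if_false, fsh_gauss (hc _)]
    congr 1
    split_ifs
    · exact hl3 _
    · simp [nuh]
  let A : hes n × Bool → P → ℝ := fun i p =>
    (if p = i.1.1.1 + crn (i.1.1.2 + 1) then 1 / 4 else 0) -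
      if p = i.1.1.1 + crn i.1.1.2 then 1 / 4 else 0
  have hS : ∀ (ρ : P → ℝ) (g : Om) (i : hes n × Bool), dg (shf n Θ ρ g) i.1.1.1 i.1.1.2 =
      (dg Θ i.1.1.1 i.1.1.2 : ℝ) +
        ∑ p ∈ inn n, (A i p : ℂ) * (g (4, p) + Complex.I * (ρ p / 4 : ℝ)) := by
    intro ρ g i
    have hx := (mem_hes.1 i.1.2).1
    simp only [A, Complex.ofReal_sub, sub_mul, sum_sub_distrib, ← fsh_pt (crn_sqr hx _), dg, shf]
    ring
  have key := gshift m hm (inn n) A (fun i => dg Θ i.1.1.1 i.1.1.2) fun p => ρ p / 4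
  have e0 : ∀ g : Om, cf Θ + cf (zw n g) = shf n Θ (fun _ => 0) g := fun g => by
    funext p; simp [shf, cf]
  have e1 : ∀ g : Om, ∑ p ∈ inn n, ρ p * zw n g p = ∑ p ∈ inn n, ρ p / 4 * g (4, p) := fun g =>
    sum_congr rfl fun p hp => by rw [zw_inn g hp]; ring
  simp only [e0, e1, hF, hS]
  convert key using 4
  · simp
  · push_cast
    exact sum_congr rfl fun p _ => by ring

end Pool.Agent.Lib.MP_9cc147_pr.Cx.I
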