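import Pool.Agent.Lib.MP_9cc147_pr.Cx.I.Cut

/-! Gluing local configurations. -/

open scoped Classical Topology
open Finset MeasureTheory ProbabilityTheory Filter

noncomputable section
namespace Pool.Agent.Lib.MP_9cc147_pr.Cx.I

variable {R L m : ℕ} {ω : Om} {γ : Gam}

/-- the labels read off from the local configurations -/
def glA (L m : ℕ) (ω : Om) (γ : Gam) (f : Ix → Form R) : P → Gp R := fun x =>
  if h : ∃ y : Lab × (P → Gp R),
      pureOn (L * m) L y.1 y.2 ω (f (ix (box m) γ (par L x))) {par L x} then h.choose.2 x else 0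

/-- the glued configuration -/
def glD (L m : ℕ) (γ : Gam) (f : Ix → Form R) (a : P → Gp R) : Form R := fun e =>
  if e ∈ hes (L * m) then
    (if ix (box m) γ (par L e.1) = ix (box m) γ (par L (rev e).1) then
      f (ix (box m) γ (par L e.1)) e else a (rev e).1 - a e.1) else 0

variable {f : Ix → Form R} {i : Ix}

theorem gl_lab (hL : 0 < L) (hu : Uni R L m) (hi : i ∈ ixs (box m) γ) {V : Finset P}
    (hV : V ⊆ tl i) {s : Lab} {b : P → Gp R} (h : pureOn (L * m) L s b ω (f i) V) {x : P}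
    (hx : x ∈ under L V) : glA L m ω γ f x = b x := by
  have h1 := (mem_under hL).1 hx
  obtain ⟨h2, h3⟩ := (mem_tl hi).1 (hV h1)
  have h4 : pureOn (L * m) L s b ω (f (ix (box m) γ (par L x))) {par L x} := by
    rw [h3]
    exact pureOn_mono h (singleton_subset_iff.2 h1)
  have h5 : ∃ y : Lab × (P → Gp R),
      pureOn (L * m) L y.1 y.2 ω (f (ix (box m) γ (par L x))) {par L x} := ⟨(s, b), h4⟩
  unfold glA
  rw [dif_pos h5]
  exact (hu _ _ _ _ _ _ _ _ h2 h5.choose_spec h4).2 x ((mem_cell hL).2 rfl)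

theorem gl_pure (hL : 0 < L) (hu : Uni R L m) (hi : i ∈ ixs (box m) γ) {V : Finset P}
    (hV : V ⊆ tl i) {s : Lab} {b : P → Gp R} (h : pureOn (L * m) L s b ω (f i) V) :
    pureOn (L * m) L s (glA L m ω γ f) ω (f i) V :=
  pureOn_congr h (fun _ hx => gl_lab hL hu hi hV h hx) fun _ _ _ _ => rfl

theorem gl_forms (hf : f i ∈ lfs R (L * m) L m ω γ i) :
    f i ∈ forms R (L * m) (under L (tl i)) := by
  rcases i with T | X
  · have h := (mem_filter.1 (show f (.inl T) ∈ pur R (L * m) L ω ((γ T).getD 0) T from hf)).1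
    rw [← under_one] at h
    exact h
  · exact (mem_filter.1
      (show f (.inr X) ∈ adm R (L * m) L m ω X (sgm (box m) γ X) from hf)).1

theorem gl_empty {n : ℕ} {s : Lab} {a : P → Gp R} {δ : Form R} : pureOn n L s a ω δ ∅ := by
  refine ⟨fun T hT => absurd hT (notMem_empty T), fun e _ h _ => ?_⟩
  simp [under] at h

theorem gl_near (hL : 0 < L) (hu : Uni R L m) (hγ : cmp (box m) γ) (hi : i ∈ ixs (box m) γ)
    (hf : f i ∈ lfs R (L * m) L m ω γ i) {T0 : P} (h0 : T0 ∈ box m) {s : Lab}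
    (hs : γ T0 = some s) :
    pureOn (L * m) L s (glA L m ω γ f) ω (f i) (near 1 (tl i) {T0}) := by
  rcases (near 1 (tl i) {T0}).eq_empty_or_nonempty with h | ⟨T1, h1⟩
  · rw [h]
    exact gl_empty
  obtain ⟨h2, h3⟩ := mem_near1.1 h1
  have hsub : near 1 (tl i) {T0} ⊆ tl i := filter_subset _ _
  rcases i with T | X
  · have hT : T1 = T := mem_singleton.1 h2
    subst hT
    obtain ⟨h4, h5⟩ := inl_mem.1 hi
    obtain ⟨s', hs'⟩ := Option.ne_none_iff_exists'.1 h5
    have hss : s = s' := hγ _ h0 _ h4 h3 _ _ hs hs'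
    subst hss
    obtain ⟨b, hb, -⟩ :=
      (mem_filter.1 (show f (.inl T1) ∈ pur R (L * m) L ω ((γ T1).getD 0) T1 from hf)).2
    rw [hs'] at hb
    exact gl_pure hL hu hi hsub (pureOn_mono hb hsub)
  · have hX := inr_mem.1 hi
    have hb : T0 ∈ bdry (box m) X := by
      refine mem_bdry.2 ⟨h0, ⟨T1, h2, nr_symm h3⟩, fun h => ?_⟩
      rw [(comps_bad hX h).2] at hs
      exact absurd hs (by simp)
    obtain ⟨s', b, e1, e2, -⟩ := (mem_filter.1
      (show f (.inr X) ∈ adm R (L * m) L m ω X (sgm (box m) γ X) from hf)).2.1 T0 hb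
    have hss : s = s' := by
      unfold sgm at e1
      rw [if_pos hb, hs] at e1
      exact Option.some.inj e1
    subst hss
    exact gl_pure hL hu hi hsub e2

theorem gl_out (hL : 0 < L) (hu : Uni R L m) (hi : i ∈ ixs (box m) γ)
    (hf : f i ∈ lfs R (L * m) L m ω γ i) {e : Ed} (he : e ∈ hes (L * m))
    (h1 : e.1 ∈ under L (tl i)) (h2 : (rev e).1 ∉ under L (tl i)) :
    f i e = -glA L m ω γ f e.1 := by
  rcases i with T | X
  · obtain ⟨b, hb, hb'⟩ :=
      (mem_filter.1 (show f (.inl T) ∈ pur R (L * m) L ω ((γ T).getD 0) T from hf)).2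
    rw [gl_lab hL hu hi (V := {T}) Subset.rfl hb h1]
    rw [← under_one] at hb'
    exact hb' e he h1 h2
  · have hn := nr_par hL (nr_rev e)
    have h3 : par L e.1 ∈ X := (mem_under hL).1 h1
    have hb : par L (rev e).1 ∈ bdry (box m) X :=
      mem_bdry.2 ⟨(par_box hL).2 (mem_hes.1 he).2, ⟨_, h3, hn⟩,
        fun h => h2 ((mem_under hL).2 h)⟩
    obtain ⟨s', b, -, e2, e3⟩ := (mem_filter.1
      (show f (.inr X) ∈ adm R (L * m) L m ω X (sgm (box m) γ X) from hf)).2.1 _ hb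
    rw [gl_lab hL hu hi (V := near 1 X {par L (rev e).1}) (filter_subset _ _) e2
      ((mem_under hL).2 (mem_near1.2 ⟨h3, nr_symm hn⟩))]
    exact e3 e he h1 ((mem_cell hL).2 rfl)

theorem gl_in (hL : 0 < L) (hi : i ∈ ixs (box m) γ) (a : P → Gp R) {e : Ed}
    (he : e ∈ hes (L * m)) (h1 : e.1 ∈ under L (tl i)) (h2 : (rev e).1 ∈ under L (tl i)) :
    glD L m γ f a e = f i e := by
  have e1 := ((mem_tl hi).1 ((mem_under hL).1 h1)).2
  have e2 := ((mem_tl hi).1 ((mem_under hL).1 h2)).2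
  unfold glD
  rw [if_pos he, e1, e2, if_pos rfl]

theorem gl_sm (hL : 0 < L) (hu : Uni R L m) (hγ : cmp (box m) γ)
    (hf : ∀ i ∈ ixs (box m) γ, f i ∈ lfs R (L * m) L m ω γ i) :
    Sm (L * m) L m ω γ (glA L m ω γ f) (glD L m γ f (glA L m ω γ f)) := by
  intro T0 h0 s hs
  refine ⟨fun T hT => ?_, fun e he h1 h2 => ?_⟩
  · obtain ⟨h1, h2⟩ := mem_near1.1 hT
    have hi : ix (box m) γ T ∈ ixs (box m) γ := ix_mem h1
    exact (gl_near hL hu hγ hi (hf _ hi) h0 hs).1 T
      (mem_near1.2 ⟨(mem_tl hi).2 ⟨h1, rfl⟩, h2⟩)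
  · obtain ⟨a1, a2⟩ := mem_near1.1 ((mem_under hL).1 h1)
    obtain ⟨b1, b2⟩ := mem_near1.1 ((mem_under hL).1 h2)
    unfold glD
    rw [if_pos he]
    split_ifs with h
    · have hi : ix (box m) γ (par L e.1) ∈ ixs (box m) γ := ix_mem a1
      exact (gl_near hL hu hγ hi (hf _ hi) h0 hs).2 e he
        ((mem_under hL).2 (mem_near1.2 ⟨(mem_tl hi).2 ⟨a1, rfl⟩, a2⟩))
        ((mem_under hL).2 (mem_near1.2 ⟨(mem_tl hi).2 ⟨b1, h.symm⟩, b2⟩))
    · rfl

theorem gl_mem (hL : 5 ≤ L) (hu : Uni R L m) (hγ : cmp (box m) γ)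
    (hf : ∀ i ∈ ixs (box m) γ, f i ∈ lfs R (L * m) L m ω γ i) :
    glD L m γ f (glA L m ω γ f) ∈ forms R (L * m) (box (L * m)) := by
  have hL0 : 0 < L := by omega
  have hw : ∀ e ∈ hes (L * m), glD L m γ f (glA L m ω γ f) e ∈ Wl R := by
    intro e he
    obtain ⟨a1, b1⟩ := mem_hes.1 he
    rw [← par_box hL0] at a1 b1
    by_cases h : ix (box m) γ (par L e.1) = ix (box m) γ (par L (rev e).1)
    · have hi : ix (box m) γ (par L e.1) ∈ ixs (box m) γ := ix_mem a1
      have h1 := (mem_under hL0).2 ((mem_tl hi).2 ⟨a1, rfl⟩)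
      have h2 := (mem_under hL0).2 ((mem_tl hi).2 ⟨b1, h.symm⟩)
      rw [gl_in hL0 hi _ he h1 h2]
      exact (mem_forms.1 (gl_forms (hf _ hi))).2.2.2 e he h1 h2
    · obtain ⟨e1, e2, -⟩ := sm_seam hL hγ (gl_sm hL0 hu hγ hf) he h
      rw [e1]
      exact sub_Wl (by omega)
  refine mem_forms.2 ⟨fun e he => ?_, fun e he => ?_, fun e => ?_, fun e he _ _ => hw e he⟩
  · rw [he_box] at he
    exact mem_union_left _ (hw e he)
  · rw [he_box] at he
    unfold glD
    rw [if_neg he]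
  · unfold glD
    by_cases he : e ∈ hes (L * m)
    · rw [if_pos he, if_pos (rev_hes.2 he), rev_rev]
      by_cases h : ix (box m) γ (par L e.1) = ix (box m) γ (par L (rev e).1)
      · have hi : ix (box m) γ (par L e.1) ∈ ixs (box m) γ :=
          ix_mem ((par_box hL0).2 (mem_hes.1 he).1)
        rw [if_pos h, if_pos h.symm, ← h]
        exact (mem_forms.1 (gl_forms (hf _ hi))).2.2.1 e
      · rw [if_neg h, if_neg (fun h' => h h'.symm), neg_sub]
    · rw [if_neg he, if_neg (fun h => he (rev_hes.1 h)), neg_zero]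

theorem gl_stt (hL : 0 < L) (hu : Uni R L m)
    (hγ : γ ∈ (cfgs univ none (box m)).filter (cmp (box m)))
    (hf : ∀ i ∈ ixs (box m) γ, f i ∈ lfs R (L * m) L m ω γ i) :
    stt (L * m) L m ω (glD L m γ f (glA L m ω γ f)) = γ := by
  obtain ⟨g1, g2⟩ := mem_filter.1 hγ
  have hs := gl_sm hL hu g2 hf
  funext T
  cases hT : γ T with
  | some s =>
    have h0 : T ∈ box m := by
      by_contra h
      rw [(mem_cfgs.1 g1).2 T h] at hT
      exact absurd hT (by simp)
    exact (stt_some hu).2 ⟨h0, _, hs T h0 s hT⟩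
  | none =>
    by_contra hne
    obtain ⟨s, hs'⟩ := Option.ne_none_iff_exists'.1 hne
    obtain ⟨h0, a', ha'⟩ := (stt_some hu).1 hs'
    have hi : ix (box m) γ T ∈ ixs (box m) γ := ix_mem h0
    have hT' : T ∈ tl (ix (box m) γ T) := (mem_tl hi).2 ⟨h0, rfl⟩
    have hx : ix (box m) γ T = .inr (comp (bt (box m) γ) T) := by
      unfold ix
      rw [if_pos hT]
    rw [hx] at hi hT'
    generalize comp (bt (box m) γ) T = X at hi hT'
    have hX := inr_mem.1 hi
    have hTX : T ∈ X := hT'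
    refine (mem_filter.1 (show f (.inr X) ∈ adm R (L * m) L m ω X (sgm (box m) γ X) from
      hf _ hi)).2.2 T hTX ⟨s, a', ?_, fun T' hT' => ?_⟩
    · have hsub : near 1 X {T} ⊆ near 1 (box m) {T} := fun y hy =>
        mem_near1.2 ⟨(comps_bad hX (mem_near1.1 hy).1).1, (mem_near1.1 hy).2⟩
      refine pureOn_congr (pureOn_mono ha' hsub) (fun _ _ => rfl) fun e he h1 h2 => ?_
      exact (gl_in hL hi _ he ((mem_under hL).2 (mem_near1.1 ((mem_under hL).1 h1)).1)
        ((mem_under hL).2 (mem_near1.1 ((mem_under hL).1 h2)).1)).symm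
    · obtain ⟨h1, h2⟩ := mem_sdiff.1 hT'
      obtain ⟨h3, h4⟩ := mem_near1.1 h1
      have hb : T' ∈ bdry (box m) X := mem_bdry.2 ⟨h3, ⟨T, hTX, h4⟩, h2⟩
      obtain ⟨s', e1⟩ := bdry_good hX hb
      have e2 : s' = s := (hu T' _ _ _ _ _ _ _ h3
        (pureOn_mono (hs T' h3 s' e1) (singleton_subset_iff.2 (mem_near1.2 ⟨h3, nr_refl _ _⟩)))
        (pureOn_mono ha' (singleton_subset_iff.2 h1))).1
      unfold sgm
      rw [if_pos hb, e1, e2]

theorem gl_cut (hL : 0 < L) (hu : Uni R L m) (hi : i ∈ ixs (box m) γ)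
    (hf : f i ∈ lfs R (L * m) L m ω γ i) :
    cut (L * m) (under L (tl i)) (glA L m ω γ f) (glD L m γ f (glA L m ω γ f)) = f i := by
  obtain ⟨-, f0, fr, -⟩ := mem_forms.1 (gl_forms hf)
  funext e
  unfold cut
  by_cases he : e ∈ hes (L * m)
  · rw [if_pos he]
    split_ifs with h1 h2 h2
    · exact gl_in hL hi _ he h1 h2
    · exact (gl_out hL hu hi hf he h1 h2).symm
    · have h3 := gl_out hL hu hi hf (rev_hes.2 he) h2 (by rw [rev_rev]; exact h1)
      rw [fr] at h3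
      exact (neg_injective h3).symm
    · exact (f0 e fun h => (mem_he.1 h).2.elim h1 h2).symm
  · rw [if_neg he]
    exact (f0 e fun h => he (mem_he.1 h).1).symm

theorem glue (hL : 5 ≤ L) (hu : Uni R L m) (hγ : γ ∈ (cfgs univ none (box m)).filter (cmp (box m)))
    (f : Ix → Form R) (hf : ∀ i ∈ ixs (box m) γ, f i ∈ lfs R (L * m) L m ω γ i) :
    ∃ δ ∈ forms R (L * m) (box (L * m)), ∃ a, stt (L * m) L m ω δ = γ ∧
      Sm (L * m) L m ω γ a δ ∧ ∀ i ∈ ixs (box m) γ, cut (L * m) (under L (tl i)) a δ = f i := by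
  have hL0 : 0 < L := by omega
  have g2 := (mem_filter.1 hγ).2
  exact ⟨_, gl_mem hL hu g2 hf, _, gl_stt hL0 hu hγ hf, gl_sm hL0 hu g2 hf,
    fun i hi => gl_cut hL0 hu hi (hf i hi)⟩

end Pool.Agent.Lib.MP_9cc147_pr.Cx.I
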