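import Pool.Agent.Lib.MP_9cc147_pr.Cx.I.Rho

/-! The phase factor of a region. -/

open scoped Classical Topology
open Finset MeasureTheory ProbabilityTheory Filter

noncomputable section
namespace Pool.Agent.Lib.MP_9cc147_pr.Cx.I

variable {o : Mod} {L m : ℕ} {ω : Om} {δ : Form o.R} {X : Finset P} {t z : ℝ} {Θ : P → ℝ}

theorem pha_lo {b x : ℤ} (hL : 5 ≤ L) (hb : 0 ≤ b) (h : b * L ≤ x) (hx : x = 0) : b = 0 := by
  have : (0 : ℤ) < L := by omega
  nlinarith

theorem pha_hi {b x : ℤ} (hL : 5 ≤ L) (hb : b < m) (h : x ≤ (b + 1) * L) (hx : x = L * m) :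
    b = m - 1 := by
  have : (0 : ℤ) < L := by omega
  have : (m : ℤ) ≤ b + 1 := by nlinarith
  omega

theorem pha_const (hL : 5 ≤ L) (hX : X ⊆ box m) (hs : ¬ spec m X) {p y : P}
    (hp : p ∈ refs (L * m) L m X) (hy : y ∈ refs (L * m) L m X) :
    uB (L * m) p = uB (L * m) y := by
  have key : ∀ p ∈ refs (L * m) L m X, ∀ y ∈ refs (L * m) L m X,
      ((p.1 = 0 ∧ 0 < p.2) ∨ (p.2 = (L * m : ℕ) ∧ p.1 < (L * m : ℕ))) →
      (y.1 = 0 ∧ 0 < y.2) ∨ (y.2 = (L * m : ℕ) ∧ y.1 < (L * m : ℕ)) := fun p hp y hy h => by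
    by_contra hc
    obtain ⟨B, hB, b1⟩ := mem_biUnion.1 (mem_inter.1 (mem_filter.1 hp).1).2
    obtain ⟨C, hC, c1⟩ := mem_biUnion.1 (mem_inter.1 (mem_filter.1 hy).1).2
    obtain ⟨y1, y2⟩ := mem_sdiff.1 (mem_inter.1 (mem_filter.1 hy).1).1
    simp only [fat, mem_product, mem_Icc, sqr, inn, mem_Ioo, Nat.cast_zero, sub_zero,
      add_zero] at b1 c1 y1 y2
    obtain ⟨b1, b2⟩ := b1
    obtain ⟨c1, c2⟩ := c1
    have kB := hX hB
    have kC := hX hC
    simp only [box, mem_product, mem_Ico] at kB kC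
    push_cast at h hc y1 y2
    refine hs ⟨?_, ?_⟩ <;> simp only [sds, mem_filter, mem_univ, true_and]
    · rcases h with h | h
      · exact Or.inl ⟨B, hB, pha_lo hL kB.1.1 b1.1 h.1⟩
      · exact Or.inr ⟨B, hB, pha_hi hL kB.2.2 b2.2 h.1⟩
    · by_cases e : y.2 = 0
      · exact Or.inl ⟨C, hC, pha_lo hL kC.2.1 c2.1 e⟩
      · exact Or.inr ⟨C, hC, pha_hi hL kC.1.2 c1.2 (by omega)⟩
  rw [uB, uB, if_congr ⟨key p hp y hy, key y hy p hp⟩ rfl rfl]

theorem phase (hL : 5 ≤ L) (hX : X ⊆ box m) (hδ : δ ∈ forms o.R (L * m) (under L X)) (hE : EE t z)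
    (hΘ : ∀ p ∈ ring (L * m), Θ p = z * uB (L * m) p) :
    Complex.exp (∑ p ∈ inn (L * m), (-(o.rho (L * m) (under L X) δ ω p ^ 2 / 32 : ℝ) +
      Complex.I * o.rho (L * m) (under L X) δ ω p * (cf Θ p -
        (∑ y ∈ refs (L * m) L m X, cf Θ y) / (refs (L * m) L m X).card))) *
      (if spec m X then Et z t (∑ p ∈ (ring (L * m)).filter (fun p => uB (L * m) p = 1),
        o.rho (L * m) (under L X) δ ω p) else 1) =
    Complex.exp (-(∑ p ∈ inn (L * m), o.rho (L * m) (under L X) δ ω p ^ 2 / 32 : ℝ) +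
      Complex.I * (∑ p ∈ sqr (L * m), o.rho (L * m) (under L X) δ ω p * Θ p : ℝ)) := by
  have neu := rho_neutral (ω := ω) hδ
  have off : ∀ p, (∀ d, p - crn d ∉ under L X) → o.rho (L * m) (under L X) δ ω p = 0 :=
    fun p => rho_off hδ
  generalize o.rho (L * m) (under L X) δ ω = ρ at *
  obtain ⟨c, hc⟩ : ∃ c : ℝ, c = (∑ y ∈ refs (L * m) L m X, Θ y) / (refs (L * m) L m X).card :=
    ⟨_, rfl⟩
  have e0 : (∑ y ∈ refs (L * m) L m X, cf Θ y) / (refs (L * m) L m X).card = (c : ℂ) := by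
    rw [hc]; simp [cf]
  rw [sqr_split] at neu
  have e1 : ∑ p ∈ inn (L * m), (-(ρ p ^ 2 / 32 : ℝ) + Complex.I * ρ p * (cf Θ p - c)) =
      -(∑ p ∈ inn (L * m), ρ p ^ 2 / 32 : ℝ) + Complex.I *
        (∑ p ∈ inn (L * m), ρ p * Θ p + ∑ p ∈ ring (L * m), ρ p * c : ℝ) := by
    rw [← sum_mul, eq_neg_of_add_eq_zero_right neu]
    push_cast
    simp only [cf, sum_add_distrib, sum_neg_distrib, mul_sub, mul_assoc, sum_sub_distrib, ← mul_sum,
      ← sum_mul]
    ring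
  rw [e0, e1, sqr_split]
  split_ifs with hs
  · have c0 : c = 0 := by
      rw [hc, sum_eq_zero fun y hy => ?_, zero_div]
      rw [hΘ y (mem_inter.1 (mem_filter.1 hy).1).1, (mem_filter.1 hy).2 hs, mul_zero]
    have e2 : ∑ p ∈ ring (L * m), ρ p * Θ p =
        z * ∑ p ∈ (ring (L * m)).filter (fun p => uB (L * m) p = 1), ρ p := by
      rw [sum_filter, mul_sum]
      refine sum_congr rfl fun p hp => ?_
      rw [hΘ p hp, uB]
      split_ifs with h1 h2 h2
      · ring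
      · exact absurd rfl h2
      · exact absurd h2 zero_ne_one
      · ring
    rw [hE, ← Complex.exp_add, e2, c0]
    congr 1
    push_cast
    simp only [mul_zero, sum_const_zero]
    ring
  · suffices h : ∑ p ∈ ring (L * m), ρ p * c = ∑ p ∈ ring (L * m), ρ p * Θ p by rw [mul_one, h]
    refine sum_congr rfl fun p hp => ?_
    by_cases h0 : ρ p = 0
    · simp [h0]
    have hr : p ∈ refs (L * m) L m X := by
      by_contra hr
      refine h0 (off p fun d hd => hr (mem_filter.2 ⟨mem_inter.2 ⟨hp, ?_⟩, fun h => absurd h hs⟩))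
      obtain ⟨B, hB, hd⟩ := mem_biUnion.1 hd
      refine mem_biUnion.2 ⟨B, hB, ?_⟩
      simp only [cell, fat, mem_product, mem_Ico, mem_Icc, Prod.fst_sub, Prod.snd_sub] at hd ⊢
      fin_cases d <;> simp [crn] at hd ⊢ <;> omega
    rw [hc, sum_congr rfl (g := fun _ => Θ p) fun y hy => by
      rw [hΘ y (mem_inter.1 (mem_filter.1 hy).1).1, hΘ p hp, pha_const hL hX hs hy hr],
      sum_const, nsmul_eq_mul, mul_div_cancel_left₀ _
        (by exact_mod_cast (card_pos.2 ⟨p, hr⟩).ne')]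
/-- the weight `wt` of the whole box -/
theorem wt_box (hL : 5 ≤ L) (hδ : δ ∈ forms o.R (L * m) (box (L * m))) (hE : EE t z)
    (hΘ : ∀ p ∈ ring (L * m), Θ p = z * uB (L * m) p) (σ : P → Option Lab) :
    o.wt (L * m) L m t z (cf Θ) ω (box m) σ δ = ws o (L * m) Θ δ ω := by
  have hu : under L (box m) = box (L * m) := under_box (by omega)
  have hp := phase (ω := ω) hL subset_rfl (hu ▸ hδ) hE hΘ
  have e1 : (hes (L * m)).filter (fun e => e.1 ∈ box (L * m)) = hes (L * m) :=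
    filter_true_of_mem fun e he => (mem_hes.1 he).1
  have e2 : crs (L * m) (box (L * m)) = ∅ :=
    filter_false_of_mem fun e he h => h.2 (mem_hes.1 he).2
  simp only [Mod.wt]
  rw [mul_assoc _ (Complex.exp _), hp, hu, he_box, e1, e2, prod_empty, mul_one, ws, kk, FF]
  congr 1
  push_cast
  rw [← prod_mul_distrib, ← prod_mul_distrib]
  refine prod_congr rfl fun e _ => ?_
  change _ * Complex.exp (_ * dg (shf (L * m) Θ (o.rho (L * m) (box (L * m)) δ ω) ω) e.1 e.2 ^ 2) *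
    (Complex.exp (_ * dg (shf (L * m) Θ (o.rho (L * m) (box (L * m)) δ ω) ω) e.1 e.2 ^ 2) * _ *
      if _ then o.hl (dg (shf (L * m) Θ (o.rho (L * m) (box (L * m)) δ ω) ω) e.1 e.2) else 1) = _
  generalize dg (shf (L * m) Θ (o.rho (L * m) (box (L * m)) δ ω) ω) e.1 e.2 = y
  have : -((cc o δ e : ℝ) : ℂ) * y ^ 2 =
      -((if isG (δ e) then o.η / 4 else 0 : ℝ) : ℂ) * y ^ 2 + -(o.η / 4 : ℂ) * y ^ 2 := by
    rw [cc, Mod.eta]
    split_ifs <;> push_cast <;> ring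
  rw [this, Complex.exp_add]
  ring

end Pool.Agent.Lib.MP_9cc147_pr.Cx.I
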