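import Pool.Agent.Lib.MP_9cc147_pr.Cx.I.Reg
import Pool.Agent.Lib.MP_9cc147_pr.Cx.A.Geo

/-! The labelled polymer sum as a sum over reduced states. -/

open scoped Classical Topology
open Finset MeasureTheory ProbabilityTheory Filter

noncomputable section
namespace Pool.Agent.Lib.MP_9cc147_pr.Cx.I

/-- the reduced state of a labelled configuration -/
def polD (c : P → St) : Gam := fun b => (c b).bind fun x => if x.2 = true then none else some x.1
/-- the labelled configuration of a reduced state -/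
def polU (D : Finset P) (γ : Gam) : P → St := fun b =>
  if b ∈ D ∧ γ b = none then
    (if h : Neu D (comp (bt D γ) b) (sgm D γ (comp (bt D γ) b)) then some (h.2.choose, true)
      else none)
  else (γ b).map fun s => (s, false)
/-- the tiles in polymers of one kind -/
def polY (D : Finset P) (c : P → St) (j : Option Lab) : Finset P :=
  D.filter fun b => c b = j.map fun s => (s, true)
/-- no factor vanishes -/
def polG (D : Finset P) (c : P → St) : Prop :=
  (∀ s, ∀ X ∈ comps (pol D c s), (bdry D X).Nonempty) ∧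
    ∀ X ∈ comps (bad D c), ¬ Neu D X (sgm D (polD c) X)

section
variable {D X : Finset P} {c : P → St} {γ : Gam} {a b : P} {s t : Lab} {j j' : Option Lab}

theorem pol_some : polD c b = some s ↔ c b = some (s, false) := by
  unfold polD
  rcases c b with _ | ⟨t, _ | _⟩ <;> simp

theorem pol_none : polD c b = none ↔ ∃ j : Option Lab, c b = j.map fun s => (s, true) := by
  unfold polD
  rcases c b with _ | ⟨t, _ | _⟩
  · exact ⟨fun _ => ⟨none, rfl⟩, fun _ => rfl⟩
  · refine ⟨fun h => by simp at h, fun ⟨j, h⟩ => ?_⟩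
    rcases j with _ | j <;> simp at h
  · exact ⟨fun _ => ⟨some t, rfl⟩, fun _ => rfl⟩

theorem pol_memY : b ∈ polY D c j ↔ b ∈ D ∧ c b = j.map fun s => (s, true) := mem_filter

theorem pol_mem_bt : b ∈ bt D γ ↔ b ∈ D ∧ γ b = none := mem_filter

theorem pol_Ys : polY D c (some s) = pol D c s := by
  ext b; simp [polY, pol]

theorem pol_Yn : polY D c none = bad D c := by
  ext b; simp [polY, bad]

theorem pol_bt : bt D (polD c) = univ.biUnion (polY D c) := by
  ext b
  simp only [pol_mem_bt, pol_none, mem_biUnion, mem_univ, true_and, pol_memY]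
  exact ⟨fun ⟨h, j, e⟩ => ⟨j, h, e⟩, fun ⟨j, h, e⟩ => ⟨h, j, e⟩⟩

theorem pol_sep (hc : valid D c) (ha : a ∈ polY D c j) (hb : b ∈ polY D c j') (h : nr 1 a b) :
    j = j' := by
  obtain ⟨a1, a2⟩ := pol_memY.1 ha
  obtain ⟨b1, b2⟩ := pol_memY.1 hb
  have h1 := hc a a1 b b1 h
  have h2 := hc b b1 a a1 (geo_nr_symm h)
  rcases j with _ | s <;> rcases j' with _ | t
  · rfl
  · exact absurd a2 (h2.2 t b2)
  · exact absurd b2 (h1.2 s a2)
  · rw [h1.1 s t (by rw [a2]; rfl) (by rw [b2]; rfl)]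

theorem pol_comps (hc : valid D c) (hX : X ∈ comps (polY D c j)) : X ∈ comps (bt D (polD c)) := by
  rw [pol_bt, geo_comps_biUnion _ _ fun _ _ _ _ e _ ha _ hb h => e (pol_sep hc ha hb h)]
  exact mem_biUnion.2 ⟨j, mem_univ _, hX⟩

theorem pol_comp (hc : valid D c) (ha : a ∈ polY D c j) :
    comp (bt D (polD c)) a ∈ comps (polY D c j) := by
  rw [geo_comps_eq (pol_comps hc (geo_comp_mem ha)) (geo_self_comp ha)]
  exact geo_comp_mem ha

theorem pol_bd (hX : X ∈ comps (bt D γ)) (hb : b ∈ bdry D X) : ∃ s, γ b = some s := by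
  obtain ⟨⟨b1, a, ha, h⟩, b2⟩ := geo_mem_bdry.1 hb
  rcases e : γ b with _ | s
  · exact absurd (geo_comps_adj hX ha (pol_mem_bt.2 ⟨b1, e⟩) h) b2
  · exact ⟨s, rfl⟩

theorem pol_sig (hX : X ∈ comps (bt D (polD c))) : sig D c X = sgm D (polD c) X := by
  funext b
  unfold sig sgm
  split_ifs with h
  · obtain ⟨s, e⟩ := pol_bd hX h
    rw [e, pol_some.1 e]; rfl
  · rfl

theorem pol_cst (hc : valid D c) (hX : X ∈ comps (pol D c s)) : sgm D (polD c) X = cst D X s := by
  funext b
  unfold cst sgm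
  split_ifs with h
  · obtain ⟨t, e⟩ := pol_bd (pol_comps hc (pol_Ys ▸ hX)) h
    obtain ⟨⟨b1, a, ha, hn⟩, -⟩ := geo_mem_bdry.1 h
    obtain ⟨a1, a2⟩ := mem_filter.1 (geo_comps_sub hX ha)
    rw [e, (hc a a1 b b1 hn).1 s t (by rw [a2]; rfl) (by rw [pol_some.1 e]; rfl)]
  · rfl

theorem pol_cmp (hc : valid D c) : cmp D (polD c) := fun a ha b hb h s t e e' =>
  (hc a ha b hb h).1 s t (by rw [pol_some.1 e]; rfl) (by rw [pol_some.1 e']; rfl)

theorem pol_lc (hγ : cmp D γ) (hX : X ∈ comps (bt D γ)) : Lc D X (sgm D γ X) := by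
  intro a ha b hb h
  obtain ⟨s, e⟩ := pol_bd hX ha
  obtain ⟨t, e'⟩ := pol_bd hX hb
  simp only [sgm, if_pos ha, if_pos hb]
  rw [e, e', hγ a (geo_mem_bdry.1 ha).1.1 b (geo_mem_bdry.1 hb).1.1 h s t e e']

theorem pol_free (D : Finset P) (c : P → St) (I : Lab → P → ℂ) :
    ∏ s, ∏ B ∈ fre D c s, I s B =
      ∏ T ∈ D.filter (fun b => polD c b ≠ none), I ((polD c T).getD 0) T := by
  simp only [fre, prod_filter]
  rw [Finset.prod_comm]
  refine prod_congr rfl fun B _ => ?_
  simp only [← pol_some]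
  rcases polD c B with _ | t
  · simp
  · simp

theorem pol_wt (hc : valid D c) (I : Lab → P → ℂ) (k : Finset P → (P → Option Lab) → ℂ) :
    (∏ s, ∏ B ∈ fre D c s, I s B) *
      (∏ s, ∏ X ∈ comps (pol D c s), if (bdry D X).Nonempty then k X (cst D X s) else 0) *
      (∏ X ∈ comps (bad D c),
        if Nn D X (sig D c X) ∧ Lc D X (sig D c X) then k X (sig D c X) else 0) =
    if polG D c then ∏ i ∈ ixs D (polD c), Sum.elim (fun T => I ((polD c T).getD 0) T)
      (fun X => k X (sgm D (polD c) X)) i else 0 := by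
  have hb : ∀ X ∈ comps (bad D c), X ∈ comps (bt D (polD c)) := fun X hX =>
    pol_comps hc (pol_Yn ▸ hX)
  split_ifs with h
  · rw [ixs, prod_disjSum, pol_free, mul_assoc]
    simp only [Sum.elim_inl, Sum.elim_inr]
    congr 1
    rw [pol_bt, geo_prod_comps _ _ fun _ _ _ _ e _ ha _ hb h => e (pol_sep hc ha hb h),
      Fintype.prod_option, mul_comm]
    simp only [pol_Ys, pol_Yn]
    congr 1
    · refine prod_congr rfl fun X hX => ?_
      rw [pol_sig (hb X hX),
        if_pos ⟨⟨h.2 X hX, fun b hb => if_neg hb⟩, pol_lc (pol_cmp hc) (hb X hX)⟩]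
    · exact prod_congr rfl fun s _ => prod_congr rfl fun X hX => by
        rw [if_pos (h.1 s X hX), pol_cst hc hX]
  · rw [polG, not_and_or] at h
    rcases h with h | h
    · simp only [not_forall] at h
      obtain ⟨s, X, hX, h⟩ := h
      exact mul_eq_zero_of_left
        (mul_eq_zero_of_right _ (prod_eq_zero (mem_univ s) (prod_eq_zero hX (if_neg h)))) _
    · simp only [not_forall] at h
      obtain ⟨X, hX, h⟩ := h
      rw [prod_eq_zero hX (if_neg fun e => h (pol_sig (hb X hX) ▸ e.1.1)), mul_zero]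

theorem pol_U_some (e : γ b = some s) : polU D γ b = some (s, false) := by
  rw [polU, if_neg (by simp [e]), e]; rfl

theorem pol_DU : polD (polU D γ) = γ := by
  funext b
  rcases e : γ b with _ | s
  · refine pol_none.2 ?_
    unfold polU
    split_ifs with h1 h2
    · exact ⟨some _, rfl⟩
    · exact ⟨none, rfl⟩
    · exact ⟨none, by rw [e]; rfl⟩
  · exact pol_some.2 (pol_U_some e)

theorem pol_U_lab (ha : a ∈ D) (e : γ a = none) (h : lab (polU D γ a) = some s) :
    (bdry D (comp (bt D γ) a)).Nonempty ∧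
      sgm D γ (comp (bt D γ) a) = cst D (comp (bt D γ) a) s := by
  rw [polU, if_pos ⟨ha, e⟩] at h
  split_ifs at h with h1
  · have h2 := h1.2.choose_spec
    have h3 : h1.2.choose = s := Option.some.inj h
    exact ⟨h1.1, h3 ▸ h2⟩
  · exact absurd h (by simp [lab])

theorem pol_key (ha : a ∈ D) (hb : b ∈ D) (hn : nr 1 a b) (e : γ a = none) (e' : γ b = some t)
    (h : lab (polU D γ a) = some s) : s = t := by
  have hb' : b ∈ bdry D (comp (bt D γ) a) := geo_mem_bdry.2
    ⟨⟨hb, a, geo_self_comp (pol_mem_bt.2 ⟨ha, e⟩), hn⟩, fun h => by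
      have := (pol_mem_bt.1 (geo_comp_sub _ _ h)).2
      simp [e'] at this⟩
  have := congrFun (pol_U_lab ha e h).2 b
  simp only [sgm, cst, if_pos hb', e'] at this
  exact (Option.some.inj this).symm

theorem pol_valid (hγ : cmp D γ) : valid D (polU D γ) := by
  intro a ha b hb hn
  rcases e : γ a with _ | s <;> rcases e' : γ b with _ | t
  · have h1 : comp (bt D γ) b = comp (bt D γ) a := geo_comp_eq
      (geo_comp_adj (geo_self_comp (pol_mem_bt.2 ⟨ha, e⟩)) (pol_mem_bt.2 ⟨hb, e'⟩) hn)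
    have h2 : polU D γ b = polU D γ a := by
      simp only [polU, if_pos (And.intro ha e), if_pos (And.intro hb e'), h1]
    rw [h2]
    exact ⟨fun s t h h' => Option.some.inj (h.symm.trans h'), fun s h => by simp [h]⟩
  · rw [pol_U_some e']
    exact ⟨fun s u h h' => (pol_key ha hb hn e e' h).trans (Option.some.inj h'),
      fun _ _ => by simp⟩
  · rw [pol_U_some e]
    exact ⟨fun u t h h' => (Option.some.inj h).symm.trans
      (pol_key hb ha (geo_nr_symm hn) e' e h').symm, fun _ h => by simp at h⟩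
  · rw [pol_U_some e, pol_U_some e', hγ a ha b hb hn s t e e']
    exact ⟨fun s t h h' => Option.some.inj (h.symm.trans h'), fun s h => by simp⟩

theorem pol_good (hγ : cmp D γ) : polG D (polU D γ) := by
  have hc := pol_valid hγ
  have key : ∀ j, ∀ X ∈ comps (polY D (polU D γ) j), ∃ a ∈ D, γ a = none ∧
      polU D γ a = j.map (fun s => (s, true)) ∧ comp (bt D γ) a = X := by
    intro j X hX
    have h1 := pol_comps hc hX
    rw [pol_DU] at h1
    obtain ⟨a, ha⟩ := (geo_comps_conn hX).1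
    obtain ⟨a1, a2⟩ := pol_memY.1 (geo_comps_sub hX ha)
    exact ⟨a, a1, (pol_mem_bt.1 (geo_comps_sub h1 ha)).2, a2, geo_comps_eq h1 ha⟩
  refine ⟨fun s X hX => ?_, fun X hX h => ?_⟩
  · obtain ⟨a, a1, a2, a3, rfl⟩ := key (some s) X (pol_Ys ▸ hX)
    exact (pol_U_lab (s := s) a1 a2 (by rw [a3]; rfl)).1
  · obtain ⟨a, a1, a2, a3, rfl⟩ := key none X (pol_Yn ▸ hX)
    rw [pol_DU] at h
    rw [polU, if_pos ⟨a1, a2⟩, dif_pos h] at a3
    simp at a3

theorem pol_UD (hc : valid D c) (h0 : ∀ x, x ∉ D → c x = none) (hG : polG D c) :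
    polU D (polD c) = c := by
  funext b
  rcases e : polD c b with _ | s
  · by_cases hb : b ∈ D
    · obtain ⟨j, hj⟩ := pol_none.1 e
      have hX := pol_comp hc (pol_memY.2 ⟨hb, hj⟩)
      rw [polU, if_pos ⟨hb, e⟩, hj]
      rcases j with _ | s
      · rw [dif_neg (hG.2 _ (pol_Yn ▸ hX))]; rfl
      · rw [pol_Ys] at hX
        have h1 := pol_cst hc hX
        have h2 : Neu D _ (sgm D (polD c) _) := ⟨hG.1 s _ hX, s, h1⟩
        rw [dif_pos h2]
        obtain ⟨x, hx⟩ := h2.1
        have h3 := congrFun (h1.symm.trans h2.2.choose_spec) x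
        simp only [cst, if_pos hx] at h3
        rw [← Option.some.inj h3]; rfl
    · rw [polU, if_neg fun h => hb h.1, e, h0 b hb]; rfl
  · rw [pol_U_some e, pol_some.1 e]

end

theorem wsum_red (D : Finset P) (I : Lab → P → ℂ) (k : Finset P → (P → Option Lab) → ℂ) :
    Wsum D I (fun s X => if (bdry D X).Nonempty then k X (cst D X s) else 0)
      (fun X σ => if Nn D X σ ∧ Lc D X σ then k X σ else 0) =
    ∑ γ ∈ (cfgs univ none D).filter (cmp D), ∏ i ∈ ixs D γ,
      Sum.elim (fun T => I ((γ T).getD 0) T) (fun X => k X (sgm D γ X)) i := by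
  rw [Wsum, sum_congr rfl fun c hc => pol_wt (mem_filter.1 hc).2 I k, ← sum_filter]
  refine sum_nbij' polD (polU D) (fun c hc => ?_) (fun γ hγ => ?_) (fun c hc => ?_)
    (fun γ _ => pol_DU) fun _ _ => rfl
  · obtain ⟨h1, h2⟩ := mem_filter.1 (mem_filter.1 hc).1
    exact mem_filter.2 ⟨geo_mem_cfgs.2 fun x hx =>
      pol_none.2 ⟨none, geo_mem_cfgs.1 h1 x hx⟩, pol_cmp h2⟩
  · obtain ⟨h1, h2⟩ := mem_filter.1 hγ
    refine mem_filter.2 ⟨mem_filter.2 ⟨geo_mem_cfgs.2 fun x hx => ?_, pol_valid h2⟩, pol_good h2⟩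
    rw [polU, if_neg fun h => hx h.1, geo_mem_cfgs.1 h1 x hx]; rfl
  · obtain ⟨h1, h2⟩ := mem_filter.1 (mem_filter.1 hc).1
    exact pol_UD h2 (geo_mem_cfgs.1 h1) (mem_filter.1 hc).2

end Pool.Agent.Lib.MP_9cc147_pr.Cx.I
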