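import Pool.Agent.Lib.MP_9cc147_pr.Cx.I.Geo

/-! Regions of a reduced state. -/

open scoped Classical Topology
open Finset MeasureTheory ProbabilityTheory Filter

noncomputable section
namespace Pool.Agent.Lib.MP_9cc147_pr.Cx.I

variable {D : Finset P} {γ : Gam} {T T' : P} {i : Ix} {X : Finset P}

theorem mem_comp {Y : Finset P} {a b : P} : b ∈ comp Y a ↔ b ∈ Y ∧ Relation.ReflTransGen (lnk Y) a b := by
  exact one_mem_comp
theorem comp_eq {Y : Finset P} {a b : P} (h : b ∈ comp Y a) : comp Y b = comp Y a := by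
  exact (one_comp_eq (mem_comp.1 h).2).symm
theorem comp_nr {Y : Finset P} {a b : P} (hX : X ∈ comps Y) (ha : a ∈ X) (hb : b ∈ Y)
    (h : nr 1 a b) : b ∈ X := by
  obtain ⟨x, _, rfl⟩ := one_mem_comps.1 hX
  exact mem_comp.2 ⟨hb, (mem_comp.1 ha).2.tail ⟨(mem_comp.1 ha).1, hb, h⟩⟩
theorem ix_mem (hT : T ∈ D) : ix D γ T ∈ ixs D γ := by
  unfold ix ixs
  split_ifs with h
  · exact inr_mem_disjSum.2 (mem_image_of_mem _ (mem_filter.2 ⟨hT, h⟩))
  · exact inl_mem_disjSum.2 (mem_filter.2 ⟨hT, h⟩)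
theorem mem_tl (hi : i ∈ ixs D γ) : T ∈ tl i ↔ T ∈ D ∧ ix D γ T = i := by
  rcases i with T0 | X
  · obtain ⟨h1, h2⟩ := mem_filter.1 (inl_mem_disjSum.1 hi)
    simp only [tl, Sum.elim_inl, mem_singleton, ix]
    refine ⟨fun h => h ▸ ⟨h ▸ h1, if_neg (h ▸ h2)⟩, fun h => ?_⟩
    have := h.2
    split_ifs at this
    exact Sum.inl.inj this
  · obtain ⟨x, hx, rfl⟩ := one_mem_comps.1 (inr_mem_disjSum.1 hi)
    simp only [tl, Sum.elim_inr, id, ix]
    refine ⟨fun h => ?_, fun h => ?_⟩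
    · obtain ⟨h1, h2⟩ := mem_filter.1 (mem_comp.1 h).1
      exact ⟨h1, by rw [if_pos h2, comp_eq h]⟩
    · have := h.2
      split_ifs at this with h2
      rw [← Sum.inr.inj this]
      exact one_self_comp (mem_filter.2 ⟨h.1, h2⟩)
theorem inl_mem : Sum.inl T ∈ ixs D γ ↔ T ∈ D ∧ γ T ≠ none := by
  exact inl_mem_disjSum.trans mem_filter
theorem inr_mem : Sum.inr X ∈ ixs D γ ↔ X ∈ comps (bt D γ) := by
  exact inr_mem_disjSum
theorem comps_bad (hX : X ∈ comps (bt D γ)) (hT : T ∈ X) : T ∈ D ∧ γ T = none := by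
  exact mem_filter.1 (one_comps_sub hX hT)
theorem bdry_good (hX : X ∈ comps (bt D γ)) (hT : T ∈ bdry D X) : ∃ s, γ T = some s := by
  obtain ⟨h1, ⟨a, ha, h2⟩, h3⟩ := mem_bdry.1 hT
  exact Option.ne_none_iff_exists'.1 fun h => h3 (comp_nr hX ha (mem_filter.2 ⟨h1, h⟩) h2)
/-- of two neighbouring tiles in different regions one is good, and both regions read its phase -/
theorem seam (hγ : cmp D γ) (hT : T ∈ D) (hT' : T' ∈ D) (h : nr 1 T T')
    (hne : ix D γ T ≠ ix D γ T') : ∃ s, (γ T = some s ∨ γ T' = some s) ∧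
      sgi D γ (ix D γ T) T' = some s ∧ sgi D γ (ix D γ T') T = some s := by
  have k : ∀ {T T' : P} {s : Lab}, T ∈ D → T' ∈ D → nr 1 T T' → γ T = none → γ T' = some s →
      sgi D γ (ix D γ T) T' = some s := fun {T T' s} hT hT' h a b => by
    rw [ix, if_pos a, sgi, Sum.elim_inr, sgm, if_pos, b]
    refine mem_bdry.2 ⟨hT', ⟨T, one_self_comp (mem_filter.2 ⟨hT, a⟩), h⟩, fun c => ?_⟩
    simpa [b] using (mem_filter.1 (mem_comp.1 c).1).2
  have g : ∀ {T T' : P} {s : Lab}, γ T = some s → sgi D γ (ix D γ T) T' = some s :=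
    fun {T T' s} b => by rw [ix, if_neg (by simp [b]), sgi, Sum.elim_inl, b]
  rcases a : γ T with _ | s <;> rcases b : γ T' with _ | s'
  · refine absurd ?_ hne
    have c : T ∈ bt D γ := mem_filter.2 ⟨hT, a⟩
    have d : T' ∈ bt D γ := mem_filter.2 ⟨hT', b⟩
    rw [ix, ix, if_pos a, if_pos b, one_comp_eq (.single ⟨c, d, h⟩)]
  · exact ⟨s', .inr rfl, k hT hT' h a b, g b⟩
  · exact ⟨s, .inl rfl, g a, k hT' hT (nr_symm h) b a⟩
  · obtain rfl := hγ T hT T' hT' h s s' a b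
    exact ⟨s, .inl rfl, g a, g b⟩
theorem prod_fib {α β : Type} [CommMonoid β] (E : Finset α) (π : α → P) (hπ : ∀ e ∈ E, π e ∈ D)
    (f : α → β) : ∏ i ∈ ixs D γ, ∏ e ∈ E.filter (fun e => π e ∈ tl i), f e = ∏ e ∈ E, f e := by
  rw [← prod_fiberwise_of_maps_to (g := fun e => ix D γ (π e)) fun e he => ix_mem (hπ e he)]
  exact prod_congr rfl fun i hi => prod_congr (filter_congr fun e he =>
    (mem_tl hi).trans (and_iff_right (hπ e he))) fun _ _ => rfl
theorem sum_fib {α β : Type} [AddCommMonoid β] (E : Finset α) (π : α → P)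
    (hπ : ∀ e ∈ E, π e ∈ D) (f : α → β) :
    ∑ i ∈ ixs D γ, ∑ e ∈ E.filter (fun e => π e ∈ tl i), f e = ∑ e ∈ E, f e := by
  rw [← sum_fiberwise_of_maps_to (g := fun e => ix D γ (π e)) fun e he => ix_mem (hπ e he)]
  exact sum_congr rfl fun i hi => sum_congr (filter_congr fun e he =>
    (mem_tl hi).trans (and_iff_right (hπ e he))) fun _ _ => rfl

end Pool.Agent.Lib.MP_9cc147_pr.Cx.I
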