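import Pool.Agent.Lib.MP_9cc147_pr.Cx.I.Geo

/-! The complex shift of the white noise. -/

open scoped Classical Topology
open Finset MeasureTheory ProbabilityTheory Filter

noncomputable section
namespace Pool.Agent.Lib.MP_9cc147_pr.Cx.I

instance sh_prob : IsProbabilityMeasure PP := by unfold PP; infer_instance

theorem sh_mp (S : Finset P) : MeasurePreserving (fun (g : Om) (p : S) => g (4, p.1)) PP
    (Measure.pi fun _ => gaussianReal 0 1) := by
  refine ⟨by fun_prop, ?_⟩
  rw [← Measure.infinitePi_eq_pi]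
  exact Measure.map_infinitePi_infinitePi_of_inj (P := fun _ : ℕ × P => gaussianReal 0 1)
    (f := fun p : S => ((4 : ℕ), p.1)) fun _ _ h => Subtype.ext (Prod.ext_iff.1 h).2

theorem gexp (S : Finset P) (c : P → ℂ) :
    Integrable (fun g : Om => Complex.exp (∑ p ∈ S, c p * g (4, p))) PP ∧
    ∫ g, Complex.exp (∑ p ∈ S, c p * g (4, p)) ∂PP = Complex.exp (∑ p ∈ S, c p ^ 2 / 2) := by
  have h1 : ∀ z : ℂ, Integrable (fun x : ℝ => Complex.exp (z * x)) (gaussianReal 0 1) := fun z =>
    (integrable_exp_mul_gaussianReal z.re).mono' (Continuous.aestronglyMeasurable (by fun_prop))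
      (Eventually.of_forall fun x => by rw [Complex.norm_exp]; simp)
  have h2 : ∀ z : ℂ, ∫ x : ℝ, Complex.exp (z * x) ∂gaussianReal 0 1 = Complex.exp (z ^ 2 / 2) :=
    fun z => by simpa [complexMGF] using complexMGF_id_gaussianReal (μ := 0) (v := 1) z
  have h3 := Integrable.fintype_prod (f := fun (p : S) (x : ℝ) => Complex.exp (c p * x))
    fun p => h1 (c p)
  have e : (fun g : Om => Complex.exp (∑ p ∈ S, c p * g (4, p))) =
      (fun x : S → ℝ => ∏ p : S, Complex.exp (c p * x p)) ∘ fun (g : Om) (p : S) => g (4, p.1) := by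
    funext g
    rw [← sum_coe_sort, Complex.exp_sum]
    rfl
  refine ⟨e ▸ (sh_mp S).integrable_comp_of_integrable h3, ?_⟩
  have e2 := integral_map (μ := PP) (sh_mp S).measurable.aemeasurable ((sh_mp S).map_eq ▸ h3.1)
  rw [(sh_mp S).map_eq, integral_fintype_prod_eq_prod
    (f := fun (p : S) (x : ℝ) => Complex.exp (c p * x))] at e2
  rw [e]
  refine e2.symm.trans ?_
  simp only [h2]
  rw [← Complex.exp_sum, sum_coe_sort S fun p => c p ^ 2 / 2]

theorem sh_gen {ι : Type} [Fintype ι] (lam : ι → Measure ℝ) [∀ i, IsFiniteMeasure (lam i)]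
    (hm : ∀ i (c : ℝ), Integrable (fun x => Real.exp (c * x)) (lam i)) (S : Finset P)
    (A : ι → P → ℝ) (b : ι → ℝ) (s r : P → ℝ) :
    ∫ g, (∏ i, nuh (lam i) (b i + ∑ p ∈ S, A i p * (g (4, p) + Complex.I * s p))) *
        Complex.exp (Complex.I * ∑ p ∈ S, r p * g (4, p)) ∂PP =
      ∫ x, Complex.exp (∑ i, Complex.I * x i * b i + ∑ p ∈ S, (-(∑ i, x i * A i p : ℝ) * (s p : ℂ) -
        ((r p : ℂ) + (∑ i, x i * A i p : ℝ)) ^ 2 / 2)) ∂Measure.pi lam := by
  have sw : ∀ (x : ι → ℝ) (y : P → ℂ), ∑ i, Complex.I * x i * (b i + ∑ p ∈ S, A i p * y p) =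
      ∑ i, Complex.I * x i * b i + ∑ p ∈ S, Complex.I * (∑ i, x i * A i p : ℝ) * y p := by
    intro x y
    simp only [mul_add, sum_add_distrib, mul_sum, Complex.ofReal_sum, sum_mul]
    rw [sum_comm]
    congr 1
    refine sum_congr rfl fun p _ => sum_congr rfl fun i _ => ?_
    push_cast
    ring
  have e1 : ∀ (g : Om) (x : ι → ℝ), (∏ i, Complex.exp (Complex.I * x i *
      (b i + ∑ p ∈ S, A i p * (g (4, p) + Complex.I * s p)))) *
        Complex.exp (Complex.I * ∑ p ∈ S, r p * g (4, p)) =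
      Complex.exp (∑ i, Complex.I * x i * b i + ∑ p ∈ S, -(∑ i, x i * A i p : ℝ) * (s p : ℂ)) *
        Complex.exp (∑ p ∈ S, Complex.I * (r p + (∑ i, x i * A i p : ℝ)) * g (4, p)) := by
    intro g x
    rw [← Complex.exp_sum, ← Complex.exp_add, ← Complex.exp_add, sw, add_assoc, add_assoc]
    congr 2
    push_cast
    rw [mul_sum, ← sum_add_distrib, ← sum_add_distrib]
    refine sum_congr rfl fun p _ => ?_
    linear_combination (∑ i, (x i : ℂ) * A i p) * s p * Complex.I_mul_I
  have hi : Integrable (Function.uncurry fun (g : Om) (x : ι → ℝ) =>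
      Complex.exp (∑ i, Complex.I * x i * b i + ∑ p ∈ S, -(∑ i, x i * A i p : ℝ) * (s p : ℂ)) *
        Complex.exp (∑ p ∈ S, Complex.I * (r p + (∑ i, x i * A i p : ℝ)) * g (4, p)))
      (PP.prod (Measure.pi lam)) := by
    have h1 := (integrable_const (μ := PP) (1 : ℝ)).mul_prod
      (Integrable.fintype_prod_dep fun i => hm i (-∑ p ∈ S, A i p * s p))
    refine h1.mono' (Measurable.aestronglyMeasurable (by unfold Function.uncurry; fun_prop))
      (Eventually.of_forall fun y => le_of_eq ?_)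
    simp only [Function.uncurry]
    rw [norm_mul, Complex.norm_exp, Complex.norm_exp, ← Real.exp_sum, one_mul, ← Real.exp_add]
    congr 1
    simp only [Complex.add_re, Complex.re_sum, Complex.mul_re, Complex.mul_im, Complex.I_re,
      Complex.I_im, Complex.ofReal_re, Complex.ofReal_im, Complex.neg_re,
      Complex.add_im, zero_mul, mul_zero, sub_zero, add_zero, zero_add, sum_const_zero,
      neg_mul, sum_neg_distrib, sum_mul]
    rw [sum_comm]
    congr 1
    refine sum_congr rfl fun i _ => sum_congr rfl fun p _ => by ring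
  simp only [nuh]
  simp_rw [← integral_fintype_prod_eq_prod, ← integral_mul_const, e1]
  rw [integral_integral_swap hi]
  congr 1 with x
  rw [integral_const_mul, (gexp S _).2, ← Complex.exp_add, add_assoc, ← sum_add_distrib]
  congr 2
  refine sum_congr rfl fun p _ => ?_
  linear_combination ((r p : ℂ) + (∑ i, x i * A i p : ℝ)) ^ 2 / 2 * Complex.I_mul_I

theorem gshift {ι : Type} [Fintype ι] (lam : ι → Measure ℝ) [∀ i, IsFiniteMeasure (lam i)]
    (hm : ∀ i (c : ℝ), Integrable (fun x => Real.exp (c * x)) (lam i)) (S : Finset P)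
    (A : ι → P → ℝ) (b : ι → ℝ) (a : P → ℝ) :
    ∫ g, (∏ i, nuh (lam i) (b i + ∑ p ∈ S, A i p * g (4, p))) *
        Complex.exp (Complex.I * ∑ p ∈ S, a p * g (4, p)) ∂PP =
      Complex.exp (-∑ p ∈ S, (a p : ℂ) ^ 2 / 2) *
        ∫ g, ∏ i, nuh (lam i) (b i + ∑ p ∈ S, A i p * (g (4, p) + Complex.I * a p)) ∂PP := by
  have h1 := sh_gen lam hm S A b (fun _ => 0) a
  have h2 := sh_gen lam hm S A b a fun _ => 0
  simp only [Complex.ofReal_zero, mul_zero, add_zero, zero_mul, sum_const_zero, Complex.exp_zero,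
    mul_one, zero_add, zero_sub] at h1 h2
  simp only [Complex.ofReal_sum (s := S) (f := fun p => A _ p * _), Complex.ofReal_mul]
  rw [h1, h2, ← integral_const_mul]
  congr 1 with x
  rw [← Complex.exp_add, add_left_comm, ← sum_neg_distrib, ← sum_add_distrib]
  congr 2
  refine sum_congr rfl fun p _ => ?_
  ring

end Pool.Agent.Lib.MP_9cc147_pr.Cx.I
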