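import Pool.Agent.Lib.MP_9cc147_pr.Cx.I.Pha

/-! The weight is the product of the weights of the pieces. -/

open scoped Classical Topology
open Finset MeasureTheory ProbabilityTheory Filter

noncomputable section
namespace Pool.Agent.Lib.MP_9cc147_pr.Cx.I

variable {o : Mod} {L m : ℕ} {ω : Om} {γ : Gam} {a : P → Gp o.R} {δ : Form o.R} {t z : ℝ}
  {Θ : P → ℝ}

theorem wt_in (hL : 0 < L) {i : Ix} (hi : i ∈ ixs (box m) γ) {x : P} (hx : x ∈ box (L * m)) :
    x ∈ under L (tl i) ↔ ix (box m) γ (par L x) = i := by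
  rw [mem_under hL, mem_tl hi, par_box hL, and_iff_right hx]

/-- edges between two regions -/
def sea (L m : ℕ) (γ : Gam) : Finset Ed :=
  (hes (L * m)).filter fun e => ix (box m) γ (par L e.1) ≠ ix (box m) γ (par L (rev e).1)

theorem wt_crs (hL : 0 < L) {i : Ix} (hi : i ∈ ixs (box m) γ) :
    crs (L * m) (under L (tl i)) = (sea L m γ).filter fun e => par L e.1 ∈ tl i := by
  ext e
  simp only [crs, sea, mem_filter, and_assoc]
  refine and_congr_right fun he => ?_
  have h := mem_hes.1 he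
  rw [← mem_under hL, wt_in hL hi h.1, wt_in hL hi h.2]
  exact ⟨fun k => ⟨fun q => k.2 (q ▸ k.1), k.1⟩, fun k => ⟨k.2, fun q => k.1 (k.2.trans q.symm)⟩⟩

/-- the corrections at the seams cancel -/
theorem exc_sum (hL : 0 < L) (hγ : cmp (box m) γ) {β : Type} [AddCommGroup β] [Module ℝ β]
    (g : Ed → β) (hg : ∀ e, g (rev e) = g e) :
    ∑ i ∈ ixs (box m) γ, ∑ e ∈ crs (L * m) (under L (tl i)),
      exc L (sgi (box m) γ i) e • g e = 0 := by
  have h1 := sum_fib (D := box m) (γ := γ) (sea L m γ) (fun e => par L e.1)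
    (fun e he => (par_box hL).2 (mem_hes.1 (mem_filter.1 he).1).1)
    fun e => exc L (sgi (box m) γ (ix (box m) γ (par L e.1))) e • g e
  rw [sum_congr rfl fun i hi => ?_, h1]
  · refine sum_involution (fun e _ => rev e) (fun e he => ?_) (fun e he _ q => ?_)
      (fun e he => ?_) fun e _ => rev_rev e
    · obtain ⟨h2, h3⟩ := mem_filter.1 he
      obtain ⟨s, -, h4, h5⟩ := seam hγ ((par_box hL).2 (mem_hes.1 h2).1)
        ((par_box hL).2 (mem_hes.1 h2).2) (nr_par hL (nr_rev e)) h3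
      have h6 : (typ s e.1 : ℝ) + typ s (rev e).1 = 2 := by exact_mod_cast typ_rev s e
      simp only [exc, rev_rev, h4, h5, hg, Option.map_some, Option.getD_some]
      rw [← add_smul, show (typ s e.1 : ℝ) - 1 + (typ s (rev e).1 - 1) = 0 by linarith, zero_smul]
    · exact (mem_filter.1 he).2 (by rw [q])
    · refine mem_filter.2 ⟨rev_hes.2 (mem_filter.1 he).1, ?_⟩
      rw [rev_rev]
      exact (mem_filter.1 he).2.symm
  · rw [wt_crs hL hi]
    refine sum_congr rfl fun e he => ?_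
    rw [((mem_tl hi).1 (mem_filter.1 he).2).2]

theorem nexp_sum (hL : 0 < L) (hγ : cmp (box m) γ) :
    ∑ i ∈ ixs (box m) γ, nexp (L * m) L (tl i) (sgi (box m) γ i) = ((L * m) ^ 2 : ℕ) := by
  have h1 := exc_sum hL hγ (cap (L * m)) (cap_rev _)
  have h2 := sum_fib (D := box m) (γ := γ) (box m) id (fun _ h => h) fun _ => (1 : ℝ)
  have h3 : ∑ i ∈ ixs (box m) γ, ((tl i).card : ℝ) = m ^ 2 := by
    rw [sum_congr rfl fun i hi => ?_, h2]
    · simp [box, pow_two]
    · rw [show (box m).filter (fun e => id e ∈ tl i) = tl i from ?_]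
      · simp
      · ext T
        rw [mem_filter]
        exact ⟨fun h => h.2, fun h => ⟨((mem_tl hi).1 h).1, h⟩⟩
  simp only [smul_eq_mul] at h1
  simp only [nexp]
  rw [sum_add_distrib, h1, ← mul_sum, h3]
  push_cast
  ring

def wG (o : Mod) (w : Gp o.R) (y : ℂ) : ℂ :=
  (Real.sqrt (o.xw w) : ℝ) * Complex.exp (-(if isG w then o.η / 4 else 0 : ℝ) * y ^ 2)
def wH (o : Mod) (r : ℝ) (y : ℂ) : ℂ :=
  Complex.exp (-(o.η / 4 : ℝ) * y ^ 2) * (1 + o.eh : ℝ) * if r = 0 then o.hl y else 1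

theorem wG_light {w : Gp o.R} (h : ∀ i : Fin (ng o.R), o.R ≤ i.val → w i = 0) (y : ℂ) :
    wG o w y = 1 := by
  have h1 : ¬ isG w := fun ⟨i, hi, hw⟩ => hw (h i hi)
  have h2 : ¬ ∃ i : Fin (ng o.R), o.R + o.R ^ 2 ≤ i.val ∧ w i ≠ 0 := fun ⟨i, hi, hw⟩ =>
    hw (h i (le_of_add_le_left hi))
  simp [wG, Mod.xw, h1, h2]

theorem wG_seam {v w : Gp o.R} (h : nrm v + nrm w = 2) (h' : nrm v = 1 ∨ v = 0 ∨ w = 0) (y : ℂ) :
    wG o (w - v) y = wG o (-v) y * wG o w y := by
  rcases h' with h1 | rfl | rfl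
  · have hv := not_isG h1.le
    have hw := not_isG (w := w) (by omega)
    rw [wG_light hw, wG_light fun i hi => ?_, wG_light fun i hi => ?_, mul_one]
    · rw [Pi.neg_apply, hv i hi, neg_zero]
    · rw [Pi.sub_apply, hv i hi, hw i hi, sub_zero]
  · rw [sub_zero, neg_zero, wG_light (w := 0) fun _ _ => rfl, one_mul]
  · rw [zero_sub, wG_light (w := 0) fun _ _ => rfl, mul_one]

theorem wt_form (hL : 5 ≤ L) {X : Finset P} (hX : X ⊆ box m)
    (hδ : δ ∈ forms o.R (L * m) (under L X)) (hE : EE t z)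
    (hΘ : ∀ p ∈ ring (L * m), Θ p = z * uB (L * m) p) (σ : P → Option Lab) (y : Ed → ℂ)
    (hy : ∀ e ∈ he (L * m) (under L X),
      dg (shf (L * m) Θ (o.rho (L * m) (under L X) δ ω) ω) e.1 e.2 = y e) :
    o.wt (L * m) L m t z (cf Θ) ω X σ δ = (∏ e ∈ he (L * m) (under L X), wG o (δ e) (y e)) *
      (∏ e ∈ (hes (L * m)).filter (fun e => e.1 ∈ under L X), wH o (ω (e.2.val, e.1)) (y e)) *
      Complex.exp (∑ e ∈ crs (L * m) (under L X), exc L σ e • ((o.gam * o.η / 4 : ℝ) * y e ^ 2)) *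
      Complex.exp (-(∑ p ∈ inn (L * m), o.rho (L * m) (under L X) δ ω p ^ 2 / 32 : ℝ) +
        Complex.I * (∑ p ∈ sqr (L * m), o.rho (L * m) (under L X) δ ω p * Θ p : ℝ)) := by
  rw [← phase hL hX hδ hE hΘ, ← mul_assoc, Complex.exp_sum]
  unfold Mod.wt
  refine congrArg₂ (· * ·) (congrArg₂ (· * ·) (congrArg₂ (· * ·) (congrArg₂ (· * ·) ?_ ?_) ?_)
    rfl) rfl
  · exact prod_congr rfl fun e he => by rw [← hy e he]; rfl
  · exact prod_congr rfl fun e he => by
      rw [← hy e (mem_he.2 ⟨(mem_filter.1 he).1, Or.inl (mem_filter.1 he).2⟩)]; rfl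
  · refine prod_congr rfl fun e he => ?_
    rw [← hy e (mem_he.2 ⟨(mem_filter.1 he).1, Or.inl (mem_filter.1 he).2.1⟩), Complex.real_smul,
      ← mul_assoc, ← Complex.ofReal_mul, ← mul_div_assoc, ← mul_assoc]
    rfl

theorem wt_dg (hL : 5 ≤ L) (hγ : cmp (box m) γ) (hδ : δ ∈ forms o.R (L * m) (box (L * m)))
    (hs : Sm (L * m) L m ω γ a δ) {i : Ix} (hi : i ∈ ixs (box m) γ) {e : Ed}
    (he' : e ∈ he (L * m) (under L (tl i))) :
    dg (shf (L * m) Θ (o.rho (L * m) (under L (tl i)) (cut (L * m) (under L (tl i)) a δ) ω) ω)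
      e.1 e.2 = dg (shf (L * m) Θ (o.rho (L * m) (box (L * m)) δ ω) ω) e.1 e.2 := by
  have k : ∀ x ∈ under L (tl i), ∀ d,
      shf (L * m) Θ (o.rho (L * m) (under L (tl i)) (cut (L * m) (under L (tl i)) a δ) ω) ω
        (x + crn d) = shf (L * m) Θ (o.rho (L * m) (box (L * m)) δ ω) ω (x + crn d) := by
    intro x hx d
    simp only [shf]
    split_ifs with c
    · rw [rho_on hL hγ hδ hs hi c (d := d) (by rwa [add_sub_cancel_right])]
    · rfl
  rcases (mem_he.1 he').2 with h | h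
  · rw [dg, dg, k _ h, k _ h]
  · refine neg_injective ?_
    rw [← dg_rev, ← dg_rev, dg, dg, k _ h, k _ h]

theorem wt_edge (hL : 5 ≤ L) (hγ : cmp (box m) γ) (hs : Sm (L * m) L m ω γ a δ) (y : Ed → ℂ) :
    ∏ e ∈ hes (L * m), wG o (δ e) (y e) = ∏ i ∈ ixs (box m) γ,
      ∏ e ∈ he (L * m) (under L (tl i)), wG o (cut (L * m) (under L (tl i)) a δ e) (y e) := by
  have hL0 : 0 < L := by omega
  have h1 := prod_fib (D := box m) (γ := γ) (hes (L * m)) (fun e => par L e.1)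
    (fun e he => (par_box hL0).2 (mem_hes.1 he).1)
    fun e => wG o (if e ∈ sea L m γ then -a e.1 else δ e) (y e)
  have h2 := prod_fib (D := box m) (γ := γ) (sea L m γ) (fun e => par L (rev e).1)
    (fun e he => (par_box hL0).2 (mem_hes.1 (mem_filter.1 he).1).2)
    fun e => wG o (a (rev e).1) (y e)
  have h3 : ∏ e ∈ hes (L * m), wG o (δ e) (y e) =
      (∏ e ∈ hes (L * m), wG o (if e ∈ sea L m γ then -a e.1 else δ e) (y e)) *
        ∏ e ∈ sea L m γ, wG o (a (rev e).1) (y e) := by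
    rw [sea, prod_filter, ← prod_mul_distrib]
    refine prod_congr rfl fun e he => ?_
    by_cases c : ix (box m) γ (par L e.1) ≠ ix (box m) γ (par L (rev e).1)
    · obtain ⟨q1, q2, q3, -⟩ := sm_seam hL hγ hs he c
      rw [if_pos c, if_pos (mem_filter.2 ⟨he, c⟩), q1, wG_seam q2 q3]
    · rw [if_neg c, mul_one, if_neg]
      exact fun h => c (mem_filter.1 h).2
  rw [h3, ← h1, ← h2, ← prod_mul_distrib]
  refine prod_congr rfl fun i hi => ?_
  rw [← prod_filter_mul_prod_filter_not (he (L * m) (under L (tl i)))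
    fun e => e.1 ∈ under L (tl i)]
  congr 1
  · refine prod_congr ?_ fun e he' => ?_
    · ext e
      simp only [mem_filter, mem_he, mem_under hL0]
      tauto
    · obtain ⟨q1, q2⟩ := mem_filter.1 he'
      have q3 := (mem_he.1 q1).1
      have q4 := (wt_in hL0 hi (mem_hes.1 q3).1).1 q2
      simp only [cut, if_true, if_pos q2, sea, mem_filter, q3, true_and, q4,
        wt_in hL0 hi (mem_hes.1 q3).2, ne_eq, eq_comm (a := i), ite_not]
  · refine prod_congr ?_ fun e he' => ?_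
    · ext e
      simp only [mem_filter, mem_he, sea, ← mem_under hL0]
      constructor
      · rintro ⟨⟨q1, q2⟩, q3⟩
        refine ⟨⟨q1, Or.inr q3⟩, fun q => q2 ?_⟩
        rw [(wt_in hL0 hi (mem_hes.1 q1).1).1 q, (wt_in hL0 hi (mem_hes.1 q1).2).1 q3]
      · rintro ⟨⟨q1, q2⟩, q3⟩
        have q4 := q2.resolve_left q3
        refine ⟨⟨q1, fun q => q3 ?_⟩, q4⟩
        rw [wt_in hL0 hi (mem_hes.1 q1).1, q, (wt_in hL0 hi (mem_hes.1 q1).2).1 q4]
    · obtain ⟨q1, q2⟩ := mem_filter.1 he'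
      obtain ⟨q3, q4⟩ := mem_he.1 q1
      simp only [cut, if_pos q3, if_neg q2, if_pos (q4.resolve_left q2)]

theorem wt_cut (hL : 5 ≤ L) (hγ : cmp (box m) γ) (hδ : δ ∈ forms o.R (L * m) (box (L * m)))
    (hs : Sm (L * m) L m ω γ a δ) (hE : EE t z) (hΘ : ∀ p ∈ ring (L * m), Θ p = z * uB (L * m) p)
    (σ : P → Option Lab) :
    o.wt (L * m) L m t z (cf Θ) ω (box m) σ δ = ∏ i ∈ ixs (box m) γ,
      o.wt (L * m) L m t z (cf Θ) ω (tl i) (sgi (box m) γ i) (cut (L * m) (under L (tl i)) a δ) := by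
  have hL0 : 0 < L := by omega
  let y : Ed → ℂ := fun e => dg (shf (L * m) Θ (o.rho (L * m) (box (L * m)) δ ω) ω) e.1 e.2
  have hy : ∀ e, y (rev e) = -y e := fun e => dg_rev _ e
  rw [wt_form hL Subset.rfl (by rwa [under_box hL0]) hE hΘ σ y
    (fun e _ => by rw [under_box hL0]), prod_congr rfl fun i hi =>
      wt_form hL (fun T hT => ((mem_tl hi).1 hT).1) (cut_forms hL hγ hδ hs hi) hE hΘ _ y
        fun e he' => wt_dg hL hγ hδ hs hi he']
  simp only [prod_mul_distrib, under_box hL0, he_box, ← Complex.exp_sum]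
  rw [← wt_edge hL hγ hs y, exc_sum hL0 hγ (fun e => ((o.gam * o.η / 4 : ℝ) : ℂ) * y e ^ 2)
    fun e => by rw [hy, neg_sq]]
  refine congrArg₂ (· * ·) (congrArg₂ (· * ·) (congrArg₂ (· * ·) rfl ?_) ?_) (congrArg _ ?_)
  · rw [filter_true_of_mem fun e he => (mem_hes.1 he).1,
      ← prod_fib (D := box m) (γ := γ) (hes (L * m)) (fun e => par L e.1)
        fun e he => (par_box hL0).2 (mem_hes.1 he).1]
    simp only [mem_under hL0]
  · rw [crs, filter_false_of_mem fun e he h => h.2 (mem_hes.1 he).2, sum_empty]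
  · rw [sum_add_distrib, sum_neg_distrib, ← mul_sum, ← Complex.ofReal_sum, ← Complex.ofReal_sum,
      sum_comm, sum_comm (s := ixs (box m) γ)]
    congr 3
    · refine sum_congr rfl fun p hp => ?_
      rw [← sum_div, pow_two]
      congr 1
      nth_rewrite 1 [← rho_sum hL hγ hδ hs p]
      rw [sum_mul]
      refine sum_congr rfl fun i hi => ?_
      by_cases c : ∃ d, p - crn d ∈ under L (tl i)
      · obtain ⟨d, hd⟩ := c
        rw [rho_on hL hγ hδ hs hi hp hd, pow_two]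
      · rw [rho_off (cut_forms hL hγ hδ hs hi) fun d hd => c ⟨d, hd⟩, zero_mul,
          zero_pow two_ne_zero]
    · refine sum_congr rfl fun p _ => ?_
      rw [← sum_mul, rho_sum hL hγ hδ hs p]

end Pool.Agent.Lib.MP_9cc147_pr.Cx.I
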