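import Pool.Agent.Lib.MP_9cc147_pr.Cx.S2
import Pool.Agent.Lib.MP_9cc147_pr.Cx.I.Pol
import Pool.Agent.Lib.MP_9cc147_pr.Cx.I.Cut2
import Pool.Agent.Lib.MP_9cc147_pr.Cx.I.Glue
import Pool.Agent.Lib.MP_9cc147_pr.Cx.I.Wt
import Pool.Agent.Lib.MP_9cc147_pr.Cx.I.Ana

/-! The identity at scale 0. -/

open scoped Classical Topology
open Finset MeasureTheory ProbabilityTheory Filter

noncomputable section
namespace Pool.Agent.Lib.MP_9cc147_pr.Cx.I

variable {o : Mod} {L m : ℕ} {ω : Om} {γ : Gam} {t z : ℝ} {Θ : P → ℝ}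

theorem fib (hL : 5 ≤ L) (hu : Uni o.R L m)
    (hγ : γ ∈ (cfgs univ none (box m)).filter (cmp (box m))) (hE : EE t z)
    (hΘ : ∀ p ∈ ring (L * m), Θ p = z * uB (L * m) p) :
    ∑ δ ∈ (forms o.R (L * m) (box (L * m))).filter (fun δ => stt (L * m) L m ω δ = γ),
      ws o (L * m) Θ δ ω = ∏ i ∈ ixs (box m) γ, ∑ φ ∈ lfs o.R (L * m) L m ω γ i,
        o.wt (L * m) L m t z (cf Θ) ω (tl i) (sgi (box m) γ i) φ := by
  have hc := (mem_filter.1 hγ).2
  have L0 : 0 < L := by omega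
  choose A hA using fun δ : Form o.R => stt_sm (ω := ω) (δ := δ) L0 hu
  rw [prod_sum]
  refine sum_bij (fun δ _ i _ => cut (L * m) (under L (tl i)) (A δ) δ) ?_ ?_ ?_ ?_
  · intro δ hδ
    obtain ⟨h1, rfl⟩ := mem_filter.1 hδ
    exact mem_pi.2 fun i hi => cut_lfs hL hu h1 (hA δ) hi
  · intro δ hδ δ' hδ' h
    obtain ⟨h1, h2⟩ := mem_filter.1 hδ
    obtain ⟨h3, h4⟩ := mem_filter.1 hδ'
    rw [← cut_sum hL hc h1 (h2 ▸ hA δ), ← cut_sum hL hc h3 (h4 ▸ hA δ')]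
    exact sum_congr rfl fun i hi => congrFun (congrFun h i) hi
  · intro f hf
    obtain ⟨δ, h1, a, h2, h3, h4⟩ := glue hL hu hγ
      (fun i => if h : i ∈ ixs (box m) γ then f i h else 0) fun i hi => by
        rw [dif_pos hi]; exact mem_pi.1 hf i hi
    refine ⟨δ, mem_filter.2 ⟨h1, h2⟩, funext fun i => funext fun hi => ?_⟩
    rw [cut_uni hL hu hc (h2 ▸ hA δ) h3 hi, h4 i hi, dif_pos hi]
  · intro δ hδ
    obtain ⟨h1, h2⟩ := mem_filter.1 hδ
    rw [← wt_box hL h1 hE hΘ fun _ => none, wt_cut hL hc h1 (h2 ▸ hA δ) hE hΘ, ← prod_attach]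

theorem part_b (hL : 5 ≤ L) (hu : Uni o.R L m) (hR : 1 ≤ o.R) (hE : EE t z)
    (hΘ : ∀ p ∈ ring (L * m), Θ p = z * uB (L * m) p) :
    ∑ δ ∈ forms o.R (L * m) (box (L * m)), ws o (L * m) Θ δ ω = (o.r ^ (L * m) ^ 2 : ℝ) *
      Wsum (box m) (o.ip (L * m) L m t z (cf Θ) ω)
        (fun s X => if (bdry (box m) X).Nonempty then
          o.kp (L * m) L m t z (cf Θ) ω X (cst (box m) X s) else 0)
        fun X σ => if Nn (box m) X σ ∧ Lc (box m) X σ then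
          o.kp (L * m) L m t z (cf Θ) ω X σ else 0 := by
  have r0 : 0 < o.r := by
    have : (1 : ℝ) ≤ o.R := by exact_mod_cast hR
    unfold Mod.r; linarith
  rw [wsum_red, mul_sum, ← sum_fiberwise_of_maps_to (g := stt (L * m) L m ω)
    fun δ _ => stt_mem hu]
  refine sum_congr rfl fun γ hγ => ?_
  have e : ∀ i ∈ ixs (box m) γ, Sum.elim (fun T => o.ip (L * m) L m t z (cf Θ) ω ((γ T).getD 0) T)
      (fun X => o.kp (L * m) L m t z (cf Θ) ω X (sgm (box m) γ X)) i =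
      (o.r ^ (-nexp (L * m) L (tl i) (sgi (box m) γ i)) : ℝ) * ∑ φ ∈ lfs o.R (L * m) L m ω γ i,
        o.wt (L * m) L m t z (cf Θ) ω (tl i) (sgi (box m) γ i) φ := by
    rintro (T | X) hi
    · obtain ⟨s, hs⟩ := Option.ne_none_iff_exists'.1 (inl_mem.1 hi).2
      simp only [Sum.elim_inl, tl, sgi, lfs, hs, Option.getD_some, Mod.ip]
    · rfl
  rw [fib hL hu hγ hE hΘ, prod_congr rfl e, prod_mul_distrib, ← mul_assoc, ← Complex.ofReal_prod,
    ← Real.rpow_sum_of_pos r0, sum_neg_distrib, nexp_sum (by omega) (mem_filter.1 hγ).2,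
    Real.rpow_neg r0.le, Real.rpow_natCast, ← Complex.ofReal_mul, mul_inv_cancel₀ (by positivity),
    Complex.ofReal_one, one_mul]

end Pool.Agent.Lib.MP_9cc147_pr.Cx.I

namespace Pool.Agent.Lib.MP_9cc147_pr.Cx

open I in
theorem t_pid (h_w : S_w) (h_u : S_u) (h_uni : S_uni) : S_pid := by
  intro q o t z b θ hL hh hB e0 e1 hR hr ht hz hb hθ
  have ok : Ok o := ⟨hh, hB, e0, e1, hr⟩
  have en : q.n b = q.L * q.m b 0 := by
    simp only [Par.n, Par.m, Nat.sub_zero]; ring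
  have n2 : 2 ≤ q.n b := by
    have h1 : 1 ≤ b.1 := by rcases hb.1 with h | h <;> omega
    have h2 : 1 ≤ q.m b 0 := Nat.mul_pos h1 (pow_pos (by omega) _)
    rw [en]; nlinarith
  obtain ⟨Cu, hCu⟩ := h_u
  have e : bg (q.n b) z + cf θ = cf fun p => z * uu (q.n b) p + θ p := by
    funext p; simp [bg, cf]
  have hΘ : ∀ p ∈ ring (q.n b), z * uu (q.n b) p + θ p = z * uB (q.n b) p := fun p hp => by
    rw [dir_ring hθ hp, (hCu _ n2).1.1 p hp, add_zero]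
  have hu : Uni o.R q.L (q.m b 0) := fun T s s' a a' ω ω' δ hT =>
    h_uni _ _ _ T s s' a a' ω ω' δ (by omega) fun x hx =>
      (par_box (by omega)).1 ((mem_cell (by omega)).1 hx ▸ hT)
  rw [e, W0_wu ok (h_w o hh e0 hB hr).2.2.2.2.2.2.2.2, sum_congr rfl fun δ _ => wu_ws ok _ δ,
    ← integral_finsetSum _ fun δ _ => ws_int ok _ δ, Par.Wpre, ← integral_const_mul]
  refine integral_congr_ae (ae_of_all _ fun ω => ?_)
  simp only [Mod.pre]
  rw [en] at hΘ ⊢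
  exact part_b (by omega) hu hR (Et_ee ht hz) hΘ

end Pool.Agent.Lib.MP_9cc147_pr.Cx
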